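import Pool.Agent.Work.MP_5f857a_co.L.ConB

/-!
MODULE TKOps (M): operations on subdivisions of complete graphs (set form `TK` of Defs).
-/

set_option autoImplicit false

namespace Pool.Agent.Work.MP_5f857a_co.L

variable {α : Type*} {G H : SimpleGraph α} {B T : Finset α} {W W' O J₀ : Set α}

theorem TK.mono (hG : G ≤ H) (hW : W ⊆ W') (h : TK G B W) : TK H B W' := by
  obtain ⟨I, h1, h2, h3, h4⟩ := h
  exact ⟨I, fun a ha b hb hab => (h1 a ha b hb hab).mono hG subset_rfl, fun s => (h2 s).trans hW, h3, h4⟩

theorem TK.clique (h : ∀ a ∈ B, ∀ b ∈ B, a ≠ b → G.Adj a b) : TK G B W := by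
  refine ⟨fun _ => ∅, fun a ha b hb hab => Con.adj (h a ha b hb hab) (by simp) (by simp),
    fun s => Set.empty_subset _, fun s x _ hx => hx, fun s t _ => Set.disjoint_empty _⟩

theorem TK.apex [DecidableEq α] {c : α} (hG : G ≤ H) (hc : c ∉ B) (hcW : c ∉ W)
    (hadj : ∀ b ∈ B, H.Adj c b) (h : TK G B W) : TK H (insert c B) W := by
  classical
  obtain ⟨I, h1, h2, h3, h4⟩ := h
  refine ⟨fun s => if c ∈ s then ∅ else I s, ?_, ?_, ?_, ?_⟩
  · intro a ha b hb hab
    rw [Finset.mem_insert] at ha hb
    rcases ha with rfl | ha
    · rcases hb with rfl | hb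
      · exact absurd rfl hab
      · exact Con.adj (hadj b hb) (by simp) (by simp)
    · rcases hb with rfl | hb
      · exact Con.adj (hadj a ha).symm (by simp) (by simp)
      · have hca : a ≠ c := fun h => hc (h ▸ ha)
        have hcb : b ≠ c := fun h => hc (h ▸ hb)
        have : c ∉ s(a, b) := by
          rw [Sym2.mem_iff, not_or]
          exact ⟨hca.symm, hcb.symm⟩
        simp only [this, if_false]
        exact (h1 a ha b hb hab).mono hG subset_rfl
  · intro s
    by_cases hs : c ∈ s
    · simp [hs]
    · simpa [hs] using h2 s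
  · intro s x hx hxs
    by_cases hs : c ∈ s
    · simp [hs] at hxs
    · simp only [hs, if_false] at hxs
      rw [Finset.mem_insert] at hx
      rcases hx with rfl | hx
      · exact hcW (h2 s hxs)
      · exact h3 s x hx hxs
  · intro s t hst
    by_cases hs : c ∈ s
    · simp [hs]
    · by_cases ht : c ∈ t
      · simp [ht]
      · simpa [hs, ht] using h4 s t hst

theorem TK.replace {z z' : α} (hG : G ≤ H) (h : TK (G ⊔ vE z z') B W) (hJ : Con H ({z, z'} ∪ J₀) z z')
    (hJB : ∀ x ∈ B, x ∉ J₀) (hJW : Disjoint J₀ W) : TK H B (W ∪ J₀) := by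
  classical
  obtain ⟨I, h1, h2, h3, h4⟩ := h
  -- the condition
  set P : Sym2 α → Prop := fun s => (∀ x ∈ s, x ∈ B) ∧ (z ∈ s ∨ z ∈ I s) ∧ (z' ∈ s ∨ z' ∈ I s) with hP
  by_cases hzz : z = z'
  · -- no virtual edge
    subst hzz
    refine ⟨I, fun a ha b hb hab => ?_, fun s => (h2 s).trans Set.subset_union_left, h3, h4⟩
    refine (h1 a ha b hb hab).mono ?_ subset_rfl
    intro u v huv
    rcases huv with huv | huv
    · exact hG huv
    · rw [vE_adj] at huv
      exfalso
      rcases huv with ⟨hne, ⟨rfl, rfl⟩ | ⟨rfl, rfl⟩⟩
      · exact hne rfl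
      · exact hne rfl
  have huniq : ∀ s t, P s → P t → s = t := by
    intro s t hs ht
    by_contra hst
    have key : ∀ x, (x ∈ s ∨ x ∈ I s) → (x ∈ t ∨ x ∈ I t) → x ∈ s ∧ x ∈ t := by
      intro x hxs hxt
      rcases hxs with hxs | hxs
      · rcases hxt with hxt | hxt
        · exact ⟨hxs, hxt⟩
        · exact absurd hxt (h3 t x (hs.1 x hxs))
      · rcases hxt with hxt | hxt
        · exact absurd hxs (h3 s x (ht.1 x hxt))
        · exact absurd hxt (Set.disjoint_left.1 (h4 s t hst) hxs)
    have hz := key z hs.2.1 ht.2.1
    have hz' := key z' hs.2.2 ht.2.2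
    exact hst (((Sym2.mem_and_mem_iff hzz).1 ⟨hz.1, hz'.1⟩).trans
      ((Sym2.mem_and_mem_iff hzz).1 ⟨hz.2, hz'.2⟩).symm)
  refine ⟨fun s => if P s then I s ∪ J₀ else I s, ?_, ?_, ?_, ?_⟩
  · intro a ha b hb hab
    obtain ⟨p, hp⟩ := h1 a ha b hb hab
    -- induct on the walk
    have main : ∀ (u v : α) (q : (G ⊔ vE z z').Walk u v),
        (∀ x ∈ q.support, x ∈ ({a, b} : Set α) ∪ I s(a, b)) →
        Con H ({a, b} ∪ if P s(a, b) then I s(a, b) ∪ J₀ else I s(a, b)) u v := by
      intro u v q
      induction q with
      | nil =>
        rename_i u'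
        intro hq
        refine Con.refl ?_
        rcases hq u' (by simp) with h | h
        · exact Or.inl h
        · refine Or.inr ?_
          split_ifs
          · exact Or.inl h
          · exact h
      | cons hadj q ih =>
        rename_i x y w
        intro hq
        have hsub : (({a, b} : Set α) ∪ I s(a, b)) ⊆
            ({a, b} ∪ if P s(a, b) then I s(a, b) ∪ J₀ else I s(a, b)) := by
          rintro t (h | h)
          · exact Or.inl h
          · refine Or.inr ?_
            split_ifs
            · exact Or.inl h
            · exact h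
        have hx := hq x (by simp)
        have hy := hq y (by simp)
        have h2 := ih fun t ht => hq t (by simp [ht])
        rcases hadj with hadj | hadj
        · exact (Con.adj (hG hadj) (hsub hx) (hsub hy)).trans h2
        · rw [vE_adj] at hadj
          have hPab : P s(a, b) := by
            refine ⟨?_, ?_, ?_⟩
            · intro t ht
              rw [Sym2.mem_iff] at ht
              rcases ht with rfl | rfl
              · exact ha
              · exact hb
            · have hz : z ∈ ({a, b} : Set α) ∪ I s(a, b) := by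
                rcases hadj with ⟨_, ⟨rfl, _⟩ | ⟨rfl, _⟩⟩
                · exact hx
                · exact hy
              rcases hz with h | h
              · left
                rw [Sym2.mem_iff]
                exact h
              · exact Or.inr h
            · have hz : z' ∈ ({a, b} : Set α) ∪ I s(a, b) := by
                rcases hadj with ⟨_, ⟨_, rfl⟩ | ⟨_, rfl⟩⟩
                · exact hy
                · exact hx
              rcases hz with h | h
              · left
                rw [Sym2.mem_iff]
                exact h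
              · exact Or.inr h
          have hJ' : Con H ({a, b} ∪ if P s(a, b) then I s(a, b) ∪ J₀ else I s(a, b)) z z' := by
            refine hJ.mono le_rfl ?_
            rintro t (ht | ht)
            · rcases ht with rfl | ht
              · apply hsub
                rcases hPab.2.1 with h | h
                · rw [Sym2.mem_iff] at h
                  exact Or.inl h
                · exact Or.inr h
              · rw [Set.mem_singleton_iff] at ht
                subst ht
                apply hsub
                rcases hPab.2.2 with h | h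
                · rw [Sym2.mem_iff] at h
                  exact Or.inl h
                · exact Or.inr h
            · right
              rw [if_pos hPab]
              exact Or.inr ht
          refine Con.trans ?_ h2
          rcases hadj with ⟨_, ⟨rfl, rfl⟩ | ⟨rfl, rfl⟩⟩
          · exact hJ'
          · exact hJ'.symm
    exact main a b p hp
  · intro s
    show (if P s then I s ∪ J₀ else I s) ⊆ W ∪ J₀
    split_ifs
    · exact Set.union_subset_union_left _ (h2 s)
    · exact (h2 s).trans Set.subset_union_left
  · intro s x hx hxs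
    change x ∈ (if P s then I s ∪ J₀ else I s) at hxs
    split_ifs at hxs
    · rcases hxs with h | h
      · exact h3 s x hx h
      · exact hJB x hx h
    · exact h3 s x hx hxs
  · intro s t hst
    show Disjoint (if P s then I s ∪ J₀ else I s) (if P t then I t ∪ J₀ else I t)
    have hJI : ∀ r, Disjoint J₀ (I r) := fun r => hJW.mono_right (h2 r)
    by_cases hs : P s
    · by_cases ht : P t
      · exact absurd (huniq s t hs ht) hst
      · rw [if_pos hs, if_neg ht]
        exact Disjoint.union_left (h4 s t hst) (hJI t)
    · by_cases ht : P t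
      · rw [if_neg hs, if_pos ht]
        exact Disjoint.union_right (h4 s t hst) (hJI s).symm
      · rw [if_neg hs, if_neg ht]
        exact h4 s t hst

theorem TK.poles [DecidableEq α] {x y : α} {J : α → Set α} (hxy : H.Adj x y) (hxT : ∀ t ∈ T, H.Adj x t)
    (hyT : y ∉ T) (h : TK H T W) (hJ : ∀ t ∈ T, Con H ({y, t} ∪ J t) y t) (hJO : ∀ t ∈ T, J t ⊆ O)
    (hJd : ∀ t ∈ T, ∀ t' ∈ T, t ≠ t' → Disjoint (J t) (J t')) (hOT : ∀ t ∈ T, t ∉ O) (hOW : Disjoint O W)
    (hx : x ∉ W ∪ O) (hy : y ∉ W ∪ O) : TK H (insert x (insert y T)) (W ∪ O) := by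
  classical
  -- first add `y`, then `x` as an apex
  have hxT' : x ∉ T := fun h => (hxT x h).ne rfl
  have hstep : TK H (insert y T) (W ∪ O) := by
    obtain ⟨I, h1, h2, h3, h4⟩ := h
    -- the new sets
    refine ⟨fun s => if y ∈ s then {v | ∃ t ∈ T, s = s(y, t) ∧ v ∈ J t} else I s, ?_, ?_, ?_, ?_⟩
    · intro a ha b hb hab
      rw [Finset.mem_insert] at ha hb
      rcases ha with rfl | ha
      · rcases hb with rfl | hb
        · exact absurd rfl hab
        · simp only [Sym2.mem_mk_left, if_true]
          refine (hJ b hb).mono le_rfl (Set.union_subset_union_right _ ?_)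
          intro v hv
          exact ⟨b, hb, rfl, hv⟩
      · rcases hb with rfl | hb
        · simp only [Sym2.mem_mk_right, if_true]
          refine (hJ a ha).symm.mono le_rfl ?_
          rintro v (hv | hv)
          · left
            rcases hv with hv | hv
            · exact Or.inr hv
            · exact Or.inl hv
          · exact Or.inr ⟨a, ha, Sym2.eq_swap, hv⟩
        · have hya : a ≠ y := fun h => hyT (h ▸ ha)
          have hyb : b ≠ y := fun h => hyT (h ▸ hb)
          have : y ∉ s(a, b) := by
            rw [Sym2.mem_iff, not_or]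
            exact ⟨hya.symm, hyb.symm⟩
          simp only [this, if_false]
          exact h1 a ha b hb hab
    · intro s
      show (if y ∈ s then {v | ∃ t ∈ T, s = s(y, t) ∧ v ∈ J t} else I s) ⊆ W ∪ O
      split_ifs
      · rintro v ⟨t, ht, _, hv⟩
        exact Or.inr (hJO t ht hv)
      · exact (h2 s).trans Set.subset_union_left
    · intro s v hv hvs
      change v ∈ (if y ∈ s then {v | ∃ t ∈ T, s = s(y, t) ∧ v ∈ J t} else I s) at hvs
      rw [Finset.mem_insert] at hv
      split_ifs at hvs
      · obtain ⟨t, ht, _, hvJ⟩ := hvs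
        have := hJO t ht hvJ
        rcases hv with rfl | hv
        · exact hy (Or.inr this)
        · exact hOT v hv this
      · rcases hv with rfl | hv
        · exact hy (Or.inl (h2 s hvs))
        · exact h3 s v hv hvs
    · intro s t hst
      show Disjoint (if y ∈ s then {v | ∃ t ∈ T, s = s(y, t) ∧ v ∈ J t} else I s)
        (if y ∈ t then {v | ∃ t' ∈ T, t = s(y, t') ∧ v ∈ J t'} else I t)
      have hsubO : ∀ r : Sym2 α, {v | ∃ t ∈ T, r = s(y, t) ∧ v ∈ J t} ⊆ O := by
        rintro r v ⟨t, ht, _, hv⟩
        exact hJO t ht hv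
      by_cases hs : y ∈ s
      · by_cases ht : y ∈ t
        · rw [if_pos hs, if_pos ht, Set.disjoint_left]
          rintro v ⟨t1, ht1, rfl, hv1⟩ ⟨t2, ht2, rfl, hv2⟩
          have hne : t1 ≠ t2 := fun h => hst (by rw [h])
          exact Set.disjoint_left.1 (hJd t1 ht1 t2 ht2 hne) hv1 hv2
        · rw [if_pos hs, if_neg ht]
          exact hOW.mono (hsubO s) (h2 t)
      · by_cases ht : y ∈ t
        · rw [if_neg hs, if_pos ht]
          exact (hOW.mono (hsubO t) (h2 s)).symm
        · rw [if_neg hs, if_neg ht]
          exact h4 s t hst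
  refine TK.apex le_rfl ?_ hx ?_ hstep
  · rw [Finset.mem_insert, not_or]
    exact ⟨hxy.ne, hxT'⟩
  · intro b hb
    rw [Finset.mem_insert] at hb
    rcases hb with rfl | hb
    · exact hxy
    · exact hxT b hb

end Pool.Agent.Work.MP_5f857a_co.L
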