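import Pool.Agent.Work.MP_5f857a_co.L.Arc
import Pool.Agent.Work.MP_5f857a_co.L.TKOps

/-!
The (known) subdivision of the complete graph on `e + 1` vertices in the graph of the link of a face with
`d - e` vertices, `e ≥ 2`.
-/

set_option autoImplicit false

namespace Pool.Agent.Work.MP_5f857a_co.L

variable {α : Type*}

theorem dPlusOne [DecidableEq α] {Fc : Finset α → Prop} {d : ℕ} (hG : Good Fc d) (e : ℕ)
    (he : 2 ≤ e) :
    ∀ σ : Finset α, Fc σ → σ.card + e = d →
      ∃ B : Finset α, B.card = e + 1 ∧ (∀ b ∈ B, b ∈ Lk Fc σ) ∧ TK (Gr Fc σ) B (Lk Fc σ) := by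
  induction e, he using Nat.le_induction with
  | base =>
    intro σ hσ hd
    obtain ⟨a, ha, _⟩ := hG.low σ hσ 2 (by omega) hd ∅ (by simp)
    obtain ⟨b, hb, hba⟩ := hG.low σ hσ 2 (by omega) hd {a} (by simp)
    obtain ⟨c, hc, hcab⟩ := hG.low σ hσ 2 (by omega) hd {a, b} Finset.card_le_two
    rw [Finset.mem_singleton] at hba
    rw [Finset.mem_insert, Finset.mem_singleton, not_or] at hcab
    have hT : ({a, b, c} : Finset α).card = 3 := by
      rw [Finset.card_eq_three]
      exact ⟨a, b, c, fun h => hba h.symm, fun h => hcab.1 h.symm, fun h => hcab.2 h.symm, rfl⟩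
    have hTL : ∀ t ∈ ({a, b, c} : Finset α), t ∈ Lk Fc σ := by
      intro t ht
      simp only [Finset.mem_insert, Finset.mem_singleton] at ht
      rcases ht with rfl | rfl | rfl
      · exact ha
      · exact hb
      · exact hc
    exact ⟨{a, b, c}, hT, hTL, arc hG σ hσ hd _ hT hTL⟩
  | succ e he ih =>
    intro σ hσ hd
    obtain ⟨x, hx, _⟩ := hG.low σ hσ (e + 1) (by omega) hd ∅ (by simp)
    have hcard : (insert x σ).card + e = d := by
      rw [Finset.card_insert_of_notMem hx.1]
      omega
    obtain ⟨B, hBc, hBL, hTK⟩ := ih (insert x σ) hx.2 hcard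
    have hxB : x ∉ B := fun h => not_mem_lk_insert (hBL x h)
    refine ⟨insert x B, ?_, ?_, ?_⟩
    · rw [Finset.card_insert_of_notMem hxB, hBc]
    · intro b hb
      rw [Finset.mem_insert] at hb
      rcases hb with rfl | hb
      · exact hx
      · exact lk_insert_sub hG (hBL b hb)
    · have h1 : TK (Gr Fc σ) (insert x B) (Lk Fc (insert x σ)) :=
        hTK.apex (gr_insert_le hG) hxB not_mem_lk_insert
          fun b hb => (gr_adj_iff hx.1).2 (hBL b hb)
      exact h1.mono le_rfl (lk_insert_sub hG)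

end Pool.Agent.Work.MP_5f857a_co.L
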