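import Pool.Agent.Work.MP_5f857a_co.L.Geo2

/-!
MODULE Geo3 (S-M): a simplicial configuration is `Good`.
-/

set_option autoImplicit false

namespace Pool.Agent.Work.MP_5f857a_co.L

variable {α : Type*}

/-- restriction of the members of `A` to a finite set -/
private def Geo3_res (A : Submodule ℝ (α → ℝ)) (S : Finset α) : A →ₗ[ℝ] (S → ℝ) where
  toFun g x := g.1 x.1
  map_add' _ _ := rfl
  map_smul' _ _ := rfl

private theorem Geo3_vanish [Fintype α] [DecidableEq α] {A : Submodule ℝ (α → ℝ)} {d : ℕ}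
    (hC : Cfg A d) (S : Finset α) (hS : S.card ≤ d) :
    ∃ h ∈ A, (∀ x ∈ S, h x = 0) ∧ ∃ z, h z ≠ 0 := by
  have h1 := LinearMap.finrank_range_add_finrank_ker (Geo3_res A S)
  have h2 : Module.finrank ℝ (LinearMap.range (Geo3_res A S)) ≤ S.card := by
    refine (Submodule.finrank_le _).trans ?_
    rw [Module.finrank_fintype_fun_eq_card, Fintype.card_coe]
  rw [hC.dim] at h1
  have h3 : LinearMap.ker (Geo3_res A S) ≠ ⊥ := by
    intro h
    rw [h, finrank_bot] at h1
    omega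
  obtain ⟨g, hg, hg0⟩ := Submodule.exists_mem_ne_zero_of_ne_bot h3
  refine ⟨g.1, g.2, fun x hx => congrFun (LinearMap.mem_ker.1 hg) ⟨x, hx⟩, ?_⟩
  by_contra hcon
  push Not at hcon
  exact hg0 (Subtype.ext (funext hcon))

theorem FcA_low [Fintype α] [DecidableEq α] {A : Submodule ℝ (α → ℝ)} {d : ℕ} (hC : Cfg A d)
    (σ : Finset α) (hσ : FcA A σ) (e : ℕ) (he : 1 ≤ e) (hd : σ.card + e = d) (X : Finset α)
    (hX : X.card ≤ e) : ∃ w ∈ Lk (FcA A) σ, w ∉ X := by
  have hc : (σ ∪ X).card ≤ d := by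
    have := Finset.card_union_le σ X
    omega
  obtain ⟨h, hhA, hh, z, hz⟩ := Geo3_vanish hC (σ ∪ X) hc
  have hc' : σ.card + 1 ≤ d := by omega
  rcases lt_or_gt_of_ne hz with hz | hz
  · obtain ⟨y, hy, hyF, hyp⟩ := Elem hC σ hσ hc' (-h) (A.neg_mem hhA)
      (fun x hx => by simp [hh x (Finset.mem_union_left _ hx)]) z (by simpa using hz)
    refine ⟨y, ⟨hy, hyF⟩, fun hyX => ?_⟩
    have := hh y (Finset.mem_union_right _ hyX)
    simp [this] at hyp
  · obtain ⟨y, hy, hyF, hyp⟩ := Elem hC σ hσ hc' h hhA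
      (fun x hx => hh x (Finset.mem_union_left _ hx)) z hz
    refine ⟨y, ⟨hy, hyF⟩, fun hyX => ?_⟩
    rw [hh y (Finset.mem_union_right _ hyX)] at hyp
    exact lt_irrefl _ hyp

theorem FcA_up [Fintype α] [DecidableEq α] {A : Submodule ℝ (α → ℝ)} {d : ℕ} (hC : Cfg A d)
    (σ : Finset α) (hσ : FcA A σ) (hd : σ.card + 1 = d) (x : α) (hx : x ∈ Lk (FcA A) σ) (y : α)
    (hy : y ∈ Lk (FcA A) σ) (z : α) (hz : z ∈ Lk (FcA A) σ) : x = y ∨ x = z ∨ y = z := by
  by_contra hcon
  push Not at hcon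
  obtain ⟨hxy, hxz, hyz⟩ := hcon
  have hsurj : LinearMap.range (Geo3_res A σ) = ⊤ := by
    rw [LinearMap.range_eq_top]
    intro g
    obtain ⟨h, hhA, hh⟩ := hC.simp σ hσ (fun x => if hx : x ∈ σ then g ⟨x, hx⟩ else 0)
    refine ⟨⟨h, hhA⟩, funext fun x => ?_⟩
    have := hh x.1 x.2
    simpa [Geo3_res] using this
  have h1 := LinearMap.finrank_range_add_finrank_ker (Geo3_res A σ)
  rw [hC.dim, hsurj, finrank_top, Module.finrank_fintype_fun_eq_card, Fintype.card_coe] at h1
  have h2 : Module.finrank ℝ (LinearMap.ker (Geo3_res A σ)) = 2 := by omega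
  have key : ∀ w, w ∈ Lk (FcA A) σ → ∃ f : α → ℝ, f ∈ (LinearMap.ker (Geo3_res A σ)).map A.subtype ∧
      f w = 0 ∧ ∀ v, v ∉ σ → v ≠ w → f v < 0 := by
    intro w hw
    obtain ⟨f, hfA, hf1, hf2, -⟩ := hw.2
    refine ⟨f, ?_, (hf2 w).2 (Finset.mem_insert_self _ _), ?_⟩
    · rw [Submodule.mem_map]
      refine ⟨⟨f, hfA⟩, ?_, rfl⟩
      rw [LinearMap.mem_ker]
      funext v
      exact (hf2 v.1).2 (Finset.mem_insert_of_mem v.2)
    · intro v hv hvw
      refine lt_of_le_of_ne (hf1 v) (fun h => ?_)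
      rcases Finset.mem_insert.1 ((hf2 v).1 h) with h | h
      · exact hvw h
      · exact hv h
  obtain ⟨f₁, m1, a1, b1⟩ := key x hx
  obtain ⟨f₂, m2, a2, b2⟩ := key y hy
  obtain ⟨f₃, m3, a3, b3⟩ := key z hz
  have h3 : Module.finrank ℝ ((LinearMap.ker (Geo3_res A σ)).map A.subtype) ≤ 2 := by
    rw [← h2]
    exact Submodule.finrank_map_le _ _
  have hind : ∀ g : Fin 3 → ℝ, ∑ i, g i • (![f₁, f₂, f₃] : Fin 3 → α → ℝ) i = 0 →
      ∀ i, g i = 0 := by
    intro g hg
    rw [Fin.sum_univ_three] at hg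
    simp only [Matrix.cons_val_zero, Matrix.cons_val_one, Matrix.cons_val] at hg
    have ev : ∀ v, g 0 * f₁ v + g 1 * f₂ v + g 2 * f₃ v = 0 := by
      intro v
      have := congrFun hg v
      simpa using this
    have ex := ev x
    have ey := ev y
    have ez := ev z
    rw [a1] at ex
    rw [a2] at ey
    rw [a3] at ez
    have c2x := b2 x hx.1 hxy
    have c3x := b3 x hx.1 hxz
    have c1y := b1 y hy.1 hxy.symm
    have c3y := b3 y hy.1 hyz
    have c1z := b1 z hz.1 hxz.symm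
    have c2z := b2 z hz.1 hyz.symm
    have pos : ∀ (a b p q : ℝ), p < 0 → q < 0 → a * p + b * q = 0 → 0 < a → b < 0 := by
      intro a b p q hp hq h ha
      by_contra hb
      push Not at hb
      have t1 := mul_neg_of_pos_of_neg ha hp
      have t2 := mul_nonpos_of_nonneg_of_nonpos hb hq.le
      linarith
    have neg : ∀ (a b p q : ℝ), p < 0 → q < 0 → a * p + b * q = 0 → a < 0 → 0 < b := by
      intro a b p q hp hq h ha
      by_contra hb
      push Not at hb
      have t1 := mul_pos_of_neg_of_neg ha hp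
      have t2 := mul_nonneg_of_nonpos_of_nonpos hb hq.le
      linarith
    have zero : ∀ (a b p q : ℝ), q < 0 → a * p + b * q = 0 → a = 0 → b = 0 := by
      intro a b p q hq h ha
      rw [ha, zero_mul, zero_add] at h
      exact (mul_eq_zero.1 h).resolve_right hq.ne
    have e12 : g 1 * f₂ x + g 2 * f₃ x = 0 := by linarith
    have e02 : g 0 * f₁ y + g 2 * f₃ y = 0 := by linarith
    have e01 : g 0 * f₁ z + g 1 * f₂ z = 0 := by linarith
    have hg0 : g 0 = 0 ∧ g 1 = 0 ∧ g 2 = 0 := by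
      rcases lt_trichotomy (g 0) 0 with h | h | h
      · have p1 := neg _ _ _ _ c1z c2z e01 h
        have p2 := neg _ _ _ _ c1y c3y e02 h
        have p3 := pos _ _ _ _ c2x c3x e12 p1
        linarith
      · have p1 := zero _ _ _ _ c2z e01 h
        have p2 := zero _ _ _ _ c3y e02 h
        exact ⟨h, p1, p2⟩
      · have p1 := pos _ _ _ _ c1z c2z e01 h
        have p2 := pos _ _ _ _ c1y c3y e02 h
        have p3 := neg _ _ _ _ c2x c3x e12 p1
        linarith
    intro i
    fin_cases i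
    · exact hg0.1
    · exact hg0.2.1
    · exact hg0.2.2
  have hli : LinearIndependent ℝ (![f₁, f₂, f₃] : Fin 3 → α → ℝ) :=
    Fintype.linearIndependent_iff.2 hind
  have h4 := finrank_span_eq_card hli
  have h5 : Submodule.span ℝ (Set.range (![f₁, f₂, f₃] : Fin 3 → α → ℝ)) ≤
      (LinearMap.ker (Geo3_res A σ)).map A.subtype := by
    rw [Submodule.span_le]
    rintro _ ⟨i, rfl⟩
    fin_cases i
    · exact m1
    · exact m2
    · exact m3
  have h6 := Submodule.finrank_mono h5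
  rw [h4, Fintype.card_fin] at h6
  omega

theorem good_of_cfg [Fintype α] [DecidableEq α] {A : Submodule ℝ (α → ℝ)} {d : ℕ} (hC : Cfg A d) :
    Good (FcA A) d where
  down := FcA_down hC
  conn := fun σ hσ e he hd X hX u hu huX w hw hwX =>
    FcA_conn hC σ hσ e he hd X hX u hu huX w hw hwX
  low := fun σ hσ e he hd X hX => FcA_low hC σ hσ e he hd X hX
  up := fun σ hσ hd x hx y hy z hz => FcA_up hC σ hσ hd x hx y hy z hz

end Pool.Agent.Work.MP_5f857a_co.L
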