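import Pool.Agent.Work.MP_5f857a_co.L.GeoDefs

/-!
MODULE GeoF (M): from the hypotheses of the frozen statement to a simplicial configuration.

`V` finite in `E = EuclideanSpace ℝ (Fin d)`; `α = {x // x ∈ V}`; `affA V` = the space of the functions
`x ↦ f x - c` on `α` (`f` linear, `c` real).
-/

set_option autoImplicit false

namespace Pool.Agent.Work.MP_5f857a_co.L

open Finset

variable {d : ℕ}

/-- the functions `x ↦ f x - c` on `V`, as a linear map -/
def affMap (V : Finset (EuclideanSpace ℝ (Fin d))) :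
    ((EuclideanSpace ℝ (Fin d) →ₗ[ℝ] ℝ) × ℝ) →ₗ[ℝ] ({x // x ∈ V} → ℝ) where
  toFun p := fun x => p.1 x.1 - p.2
  map_add' p q := by
    funext x
    simp only [Prod.fst_add, LinearMap.add_apply, Prod.snd_add, Pi.add_apply]
    ring
  map_smul' r p := by
    funext x
    simp only [Prod.smul_fst, LinearMap.smul_apply, smul_eq_mul, Prod.smul_snd, RingHom.id_apply,
      Pi.smul_apply]
    ring

/-- the affine functions on `V` -/
def affA (V : Finset (EuclideanSpace ℝ (Fin d))) : Submodule ℝ ({x // x ∈ V} → ℝ) :=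
  LinearMap.range (affMap V)

private theorem GeoF_inj (V : Finset (EuclideanSpace ℝ (Fin d)))
    (hspan : affineSpan ℝ (V : Set (EuclideanSpace ℝ (Fin d))) = ⊤)
    (f : EuclideanSpace ℝ (Fin d) →ₗ[ℝ] ℝ) (c : ℝ) (h : ∀ x ∈ V, f x = c) : f = 0 ∧ c = 0 := by
  have h1 : affineSpan ℝ (V : Set (EuclideanSpace ℝ (Fin d))) ≤
      (AffineSubspace.mk' c (⊥ : Submodule ℝ ℝ)).comap f.toAffineMap := by
    rw [affineSpan_le]
    intro x hx
    rw [SetLike.mem_coe, AffineSubspace.mem_comap]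
    have : f.toAffineMap x = c := h x hx
    rw [this]
    exact AffineSubspace.self_mem_mk' _ _
  rw [hspan] at h1
  have h2 : ∀ x, f x = c := by
    intro x
    have hx : x ∈ (⊤ : AffineSubspace ℝ (EuclideanSpace ℝ (Fin d))) := AffineSubspace.mem_top _ _ _
    have := h1 hx
    rw [AffineSubspace.mem_comap, AffineSubspace.mem_mk', Submodule.mem_bot] at this
    simpa [sub_eq_zero] using this
  have h3 : c = 0 := by rw [← h2 0, map_zero]
  refine ⟨?_, h3⟩
  ext x
  rw [h2, h3]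
  rfl

theorem affA_cfg (V : Finset (EuclideanSpace ℝ (Fin d)))
    (hspan : affineSpan ℝ (V : Set (EuclideanSpace ℝ (Fin d))) = ⊤)
    (hsimp : ∀ (f : EuclideanSpace ℝ (Fin d) →ₗ[ℝ] ℝ) (c : ℝ),
          (∀ x ∈ V, f x ≤ c) → (∃ x ∈ V, f x < c) →
          AffineIndependent ℝ
            (fun x : {x : EuclideanSpace ℝ (Fin d) // x ∈ V ∧ f x = c} =>
              (x : EuclideanSpace ℝ (Fin d)))) :
    Cfg (affA V) d := by
  constructor
  · have hinj : Function.Injective (affMap V) := by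
      rw [← LinearMap.ker_eq_bot, LinearMap.ker_eq_bot']
      rintro ⟨f, c⟩ h
      have h1 : ∀ x ∈ V, f x = c := by
        intro x hx
        have := congrFun h ⟨x, hx⟩
        simpa [affMap, sub_eq_zero] using this
      obtain ⟨h2, h3⟩ := GeoF_inj V hspan f c h1
      rw [h2, h3]
      rfl
    have h1 := LinearMap.finrank_range_of_inj hinj
    have h2 : Module.finrank ℝ ((EuclideanSpace ℝ (Fin d) →ₗ[ℝ] ℝ) × ℝ) = d + 1 := by
      rw [Module.finrank_prod, Module.finrank_self, Module.finrank_linearMap_self,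
        finrank_euclideanSpace_fin]
    unfold affA
    rw [h1, h2]
  · intro T hT g
    obtain ⟨F, ⟨⟨f, c⟩, rfl⟩, hF1, hF2, x0, hx0⟩ := hT
    have hle : ∀ x ∈ V, f x ≤ c := by
      intro x hx
      have := hF1 ⟨x, hx⟩
      simpa [affMap] using this
    have hlt : ∃ x ∈ V, f x < c := by
      refine ⟨x0.1, x0.2, ?_⟩
      simpa [affMap] using hx0
    have hind := hsimp f c hle hlt
    rcases T.eq_empty_or_nonempty with rfl | ⟨t0, ht0⟩
    · exact ⟨0, (affA V).zero_mem, by simp⟩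
    have hmemT : ∀ x : {x // x ∈ V}, x ∈ T ↔ f x.1 = c := by
      intro x
      rw [← hF2 x]
      simp [affMap, sub_eq_zero]
    let i0 : {x : EuclideanSpace ℝ (Fin d) // x ∈ V ∧ f x = c} := ⟨t0.1, t0.2, (hmemT t0).1 ht0⟩
    rw [affineIndependent_iff_linearIndependent_vsub ℝ _ i0] at hind
    -- a linear functional with prescribed values
    have hdual : ∃ φ : EuclideanSpace ℝ (Fin d) →ₗ[ℝ] ℝ,
        ∀ i : {x : {x : EuclideanSpace ℝ (Fin d) // x ∈ V ∧ f x = c} // x ≠ i0},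
          φ (i.1.1 -ᵥ i0.1) = g ⟨i.1.1, i.1.2.1⟩ - g t0 := by
      obtain ⟨φ, hφ⟩ := LinearMap.exists_extend ((Module.Basis.span hind).constr ℝ
        (fun i => g ⟨i.1.1, i.1.2.1⟩ - g t0))
      refine ⟨φ, fun i => ?_⟩
      have h1 := congrArg (fun q => q (Module.Basis.span hind i)) hφ
      rw [Module.Basis.constr_basis, LinearMap.comp_apply, Submodule.subtype_apply,
        Module.Basis.span_apply] at h1
      exact h1
    obtain ⟨φ, hφ⟩ := hdual
    refine ⟨affMap V (φ, φ t0.1 - g t0), ⟨_, rfl⟩, ?_⟩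
    intro x hx
    by_cases hxt : x = t0
    · subst hxt
      simp [affMap]
    · have h1 := hφ ⟨⟨x.1, x.2, (hmemT x).1 hx⟩, fun h => hxt (Subtype.ext (congrArg (fun q => q.1) h))⟩
      simp only [vsub_eq_sub, map_sub, i0] at h1
      simp only [affMap, LinearMap.coe_mk, AddHom.coe_mk]
      linarith

/-- the graph of the frozen statement -/
def polyGraph (V : Finset (EuclideanSpace ℝ (Fin d))) : SimpleGraph (EuclideanSpace ℝ (Fin d)) :=
  SimpleGraph.fromRel (fun u v : EuclideanSpace ℝ (Fin d) =>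
    u ∈ V ∧ v ∈ V ∧
    ∃ (f : EuclideanSpace ℝ (Fin d) →ₗ[ℝ] ℝ) (c : ℝ),
      (∀ x ∈ V, f x ≤ c) ∧ ∀ x ∈ V, (f x = c ↔ (x = u ∨ x = v)))

theorem affA_adj (V : Finset (EuclideanSpace ℝ (Fin d))) (u v : {x // x ∈ V})
    (h : (Gr (FcA (affA V)) ∅).Adj u v) : (polyGraph V).Adj u.1 v.1 := by
  obtain ⟨huv, -, -, F, ⟨⟨f, c⟩, rfl⟩, hF1, hF2, -⟩ := h
  rw [polyGraph, SimpleGraph.fromRel_adj]
  refine ⟨fun h => huv (Subtype.ext h), Or.inl ⟨u.2, v.2, f, c, ?_, ?_⟩⟩
  · intro x hx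
    have := hF1 ⟨x, hx⟩
    simpa [affMap] using this
  · intro x hx
    have h1 : f x - c = 0 ↔ (⟨x, hx⟩ : {x // x ∈ V}) ∈ insert u (insert v (∅ : Finset _)) :=
      hF2 ⟨x, hx⟩
    rw [sub_eq_zero, Finset.mem_insert, Finset.mem_insert, Subtype.ext_iff, Subtype.ext_iff] at h1
    rw [h1]
    constructor
    · rintro (h | h | h)
      · exact Or.inl h
      · exact Or.inr h
      · exact absurd h (Finset.notMem_empty _)
    · rintro (h | h)
      · exact Or.inl h
      · exact Or.inr (Or.inl h)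

theorem affA_neg (V : Finset (EuclideanSpace ℝ (Fin d))) (hV : ∀ v ∈ V, -v ∈ V)
    (T : Finset {x // x ∈ V}) (hT : FcA (affA V) T) :
    FcA (affA V) (T.image (fun x : {x // x ∈ V} => (⟨-x.1, hV x.1 x.2⟩ : {x // x ∈ V}))) := by
  obtain ⟨F, ⟨⟨f, c⟩, rfl⟩, hF1, hF2, x0, hx0⟩ := hT
  have hval : ∀ x : {x // x ∈ V}, affMap V (-f, c) x = affMap V (f, c) ⟨-x.1, hV x.1 x.2⟩ := by
    intro x
    change (-f) x.1 - c = f (-x.1) - c
    rw [map_neg]
    rfl
  refine ⟨affMap V (-f, c), ⟨_, rfl⟩, ?_, ?_, ⟨-x0.1, hV _ x0.2⟩, ?_⟩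
  · intro x
    rw [hval]
    exact hF1 _
  · intro x
    rw [hval, hF2, Finset.mem_image]
    constructor
    · intro h
      exact ⟨_, h, Subtype.ext (neg_neg _)⟩
    · rintro ⟨y, hy, hyx⟩
      have : (⟨-x.1, hV x.1 x.2⟩ : {x // x ∈ V}) = y := by
        rw [← hyx]
        exact Subtype.ext (neg_neg _)
      rw [this]
      exact hy
  · rw [hval]
    have : (⟨- -x0.1, hV _ (hV _ x0.2)⟩ : {x // x ∈ V}) = x0 := Subtype.ext (neg_neg _)
    simpa only [this] using hx0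

theorem affA_anti (V : Finset (EuclideanSpace ℝ (Fin d))) (hV : ∀ v ∈ V, -v ∈ V)
    (T : Finset {x // x ∈ V}) (hT : FcA (affA V) T) (x : {x // x ∈ V}) (hx : x ∈ T) :
    (⟨-x.1, hV x.1 x.2⟩ : {x // x ∈ V}) ∉ T := by
  intro hx'
  obtain ⟨F, ⟨⟨f, c⟩, rfl⟩, hF1, hF2, x0, hx0⟩ := hT
  have h1 := (hF2 _).2 hx
  have h2 := (hF2 _).2 hx'
  have h3 := hF1 ⟨-x0.1, hV _ x0.2⟩
  simp only [affMap, LinearMap.coe_mk, AddHom.coe_mk, map_neg] at h1 h2 h3 hx0
  linarith

theorem affA_empty (V : Finset (EuclideanSpace ℝ (Fin d)))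
    (hspan : affineSpan ℝ (V : Set (EuclideanSpace ℝ (Fin d))) = ⊤) : FcA (affA V) ∅ := by
  have hne : V.Nonempty := by
    rw [Finset.nonempty_iff_ne_empty]
    rintro rfl
    rw [Finset.coe_empty, AffineSubspace.span_empty] at hspan
    exact bot_ne_top hspan
  obtain ⟨v, hv⟩ := hne
  refine ⟨affMap V (0, 1), ⟨_, rfl⟩, ?_, ?_, ⟨v, hv⟩, ?_⟩
  · intro x
    simp [affMap]
  · intro x
    simp [affMap]
  · simp [affMap]

end Pool.Agent.Work.MP_5f857a_co.L
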