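import Pool.Agent.Work.MP_5f857a_co.L.ConB

/-!
MODULE TKFrozen (S): from the set form `TK` to the form of the frozen statement.
-/

set_option autoImplicit false

namespace Pool.Agent.Work.MP_5f857a_co.L

variable {α : Type*}

theorem TK.frozen {G : SimpleGraph α} {B : Finset α} {W : Set α} {m : ℕ} (hB : B.card = m)
    (h : TK G B W) :
    ∃ b : Fin m → α, Function.Injective b ∧ (∀ i, b i ∈ B) ∧
      ∃ p : (i j : Fin m) → G.Walk (b i) (b j),
        (∀ i j, i < j → (p i j).IsPath) ∧
        (∀ i j k l, i < j → k < l → (i, j) ≠ (k, l) →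
          ∀ x ∈ (p i j).support, x ∈ (p k l).support → x = b i ∨ x = b j) := by
  classical
  obtain ⟨I, h1, _, h3, h4⟩ := h
  let e : Fin m ≃ B := (B.equivFinOfCardEq hB).symm
  let b : Fin m → α := fun i => (e i).1
  have hb : Function.Injective b := fun i j hij => e.injective (Subtype.ext hij)
  have hbB : ∀ i, b i ∈ B := fun i => (e i).2
  have hwalk : ∀ i j : Fin m, ∃ q : G.Walk (b i) (b j), q.IsPath ∧
      ∀ x ∈ q.support, x ∈ ({b i, b j} ∪ I s(b i, b j) : Set α) := by
    intro i j
    by_cases hij : i = j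
    · subst hij
      exact ⟨SimpleGraph.Walk.nil, by simp, by simp⟩
    · obtain ⟨q, hq⟩ := h1 (b i) (hbB i) (b j) (hbB j) (fun h => hij (hb h))
      exact ⟨q.bypass, q.bypass_isPath, fun x hx => hq x (q.support_bypass_subset hx)⟩
  choose p hp hps using hwalk
  refine ⟨b, hb, hbB, p, fun i j _ => hp i j, ?_⟩
  intro i j k l hij hkl hne x hx hx'
  have hs : s(b i, b j) ≠ s(b k, b l) := by
    intro h
    rw [Sym2.eq_iff] at h
    rcases h with ⟨h, h'⟩ | ⟨h, h'⟩
    · exact hne (by rw [hb h, hb h'])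
    · have h1 := hb h
      have h2 := hb h'
      subst h1 h2
      exact absurd hij (not_lt.2 hkl.le)
  rcases hps i j x hx with hx | hx
  · exact hx
  · exfalso
    have hxB : x ∉ B := fun h => h3 _ x h hx
    rcases hps k l x hx' with hx' | hx'
    · rcases hx' with h | h
      · exact hxB (h ▸ hbB k)
      · rw [Set.mem_singleton_iff] at h
        exact hxB (h ▸ hbB l)
    · exact Set.disjoint_left.1 (h4 _ _ hs) hx hx'

end Pool.Agent.Work.MP_5f857a_co.L
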