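import Pool.Agent.Work.MP_5f857a_co.L.Antip
import Pool.Agent.Work.MP_5f857a_co.L.DPlusOne
import Pool.Agent.Work.MP_5f857a_co.L.Geo3
import Pool.Agent.Work.MP_5f857a_co.L.GeoF
import Pool.Agent.Work.MP_5f857a_co.L.TKFrozen

/-!
MODULE Final (S): assembly.
-/

set_option autoImplicit false

namespace Pool.Agent.Work.MP_5f857a_co.L

open Finset

variable {d : ℕ}

/-- from the combinatorial form to the graph of the polytope -/
theorem transfer (V : Finset (EuclideanSpace ℝ (Fin d))) (m : ℕ) (B : Finset {x // x ∈ V})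
    (hB : B.card = m) (W : Set {x // x ∈ V})
    (hTK : TK (Gr (FcA (affA V)) ∅) B W) :
    ∃ (b : Fin m → EuclideanSpace ℝ (Fin d)),
      Function.Injective b ∧ (∀ i, b i ∈ V) ∧
      ∃ (p : (i j : Fin m) → (polyGraph V).Walk (b i) (b j)),
        (∀ i j, i < j → (p i j).IsPath) ∧
        (∀ i j k l, i < j → k < l → (i, j) ≠ (k, l) →
          ∀ x ∈ (p i j).support, x ∈ (p k l).support → x = b i ∨ x = b j) := by
  obtain ⟨b, hb, hbB, p, hp, hpd⟩ := hTK.frozen hB
  let φ : Gr (FcA (affA V)) ∅ →g polyGraph V :=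
    { toFun := fun x => x.1
      map_rel' := fun {u v} h => affA_adj V u v h }
  have hφ : Function.Injective φ := fun x y h => Subtype.ext h
  refine ⟨fun i => (b i).1, fun i j h => hb (Subtype.ext h), fun i => (b i).2,
    fun i j => (p i j).map φ, fun i j hij => ?_, ?_⟩
  · exact SimpleGraph.Walk.IsPath.map hφ (hp i j hij)
  · intro i j k l hij hkl hne x hx hx'
    rw [SimpleGraph.Walk.support_map, List.mem_map] at hx hx'
    obtain ⟨y, hy, rfl⟩ := hx
    obtain ⟨y', hy', he⟩ := hx'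
    have : y' = y := hφ he
    subst this
    rcases hpd i j k l hij hkl hne y' hy hy' with h | h
    · left; rw [h]; rfl
    · right; rw [h]; rfl

/-- Every centrally symmetric simplicial `d`-polytope, `d ≥ 4`, has a subdivision of the complete graph on
`d + 2` vertices in its graph. -/
theorem final (d : ℕ) (hd : 4 ≤ d) (V : Finset (EuclideanSpace ℝ (Fin d)))
    (hV : ∀ v ∈ V, -v ∈ V)
    (hspan : affineSpan ℝ (V : Set (EuclideanSpace ℝ (Fin d))) = ⊤)
    (hsimp : ∀ (f : EuclideanSpace ℝ (Fin d) →ₗ[ℝ] ℝ) (c : ℝ),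
          (∀ x ∈ V, f x ≤ c) → (∃ x ∈ V, f x < c) →
          AffineIndependent ℝ
            (fun x : {x : EuclideanSpace ℝ (Fin d) // x ∈ V ∧ f x = c} =>
              (x : EuclideanSpace ℝ (Fin d)))) :
    ∃ (b : Fin (d + 2) → EuclideanSpace ℝ (Fin d)),
      Function.Injective b ∧ (∀ i, b i ∈ V) ∧
      ∃ (p : (i j : Fin (d + 2)) → (polyGraph V).Walk (b i) (b j)),
        (∀ i j, i < j → (p i j).IsPath) ∧
        (∀ i j k l, i < j → k < l → (i, j) ≠ (k, l) →
          ∀ x ∈ (p i j).support, x ∈ (p k l).support → x = b i ∨ x = b j) := by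
  have hC := affA_cfg V hspan hsimp
  obtain ⟨B, hB, hTK⟩ := antip (good_of_cfg hC) (affA_empty V hspan) hd
    (fun x : {x // x ∈ V} => (⟨-x.1, hV x.1 x.2⟩ : {x // x ∈ V}))
    (fun x => Subtype.ext (by simp)) (fun T hT => affA_neg V hV T hT)
    (fun T hT x hx => affA_anti V hV T hT x hx)
  exact transfer V (d + 2) B hB _ hTK

/-- Q1 for all `d ≤ 5`. -/
theorem finalLow (d : ℕ) (hd : d ≤ 5) (V : Finset (EuclideanSpace ℝ (Fin d)))
    (hV : ∀ v ∈ V, -v ∈ V)
    (hspan : affineSpan ℝ (V : Set (EuclideanSpace ℝ (Fin d))) = ⊤)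
    (hsimp : ∀ (f : EuclideanSpace ℝ (Fin d) →ₗ[ℝ] ℝ) (c : ℝ),
          (∀ x ∈ V, f x ≤ c) → (∃ x ∈ V, f x < c) →
          AffineIndependent ℝ
            (fun x : {x : EuclideanSpace ℝ (Fin d) // x ∈ V ∧ f x = c} =>
              (x : EuclideanSpace ℝ (Fin d)))) :
    ∃ (b : Fin (3 * d / 2) → EuclideanSpace ℝ (Fin d)),
      Function.Injective b ∧ (∀ i, b i ∈ V) ∧
      ∃ (p : (i j : Fin (3 * d / 2)) → (polyGraph V).Walk (b i) (b j)),
        (∀ i j, i < j → (p i j).IsPath) ∧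
        (∀ i j k l, i < j → k < l → (i, j) ≠ (k, l) →
          ∀ x ∈ (p i j).support, x ∈ (p k l).support → x = b i ∨ x = b j) := by
  have hC := affA_cfg V hspan hsimp
  have hG := good_of_cfg hC
  have h0 := affA_empty V hspan
  interval_cases d
  · -- d = 0
    exact transfer V 0 ∅ rfl Set.univ (TK.clique (by simp))
  · -- d = 1
    obtain ⟨w, _, _⟩ := hG.low ∅ h0 1 le_rfl (by simp) ∅ (by simp)
    exact transfer V 1 {w} (by simp) Set.univ (TK.clique (by
      intro a ha b hb hab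
      rw [Finset.mem_singleton] at ha hb
      exact absurd (ha.trans hb.symm) hab))
  · obtain ⟨B, hB, _, hTK⟩ := dPlusOne hG 2 le_rfl ∅ h0 (by simp)
    exact transfer V 3 B hB _ hTK
  · obtain ⟨B, hB, _, hTK⟩ := dPlusOne hG 3 (by omega) ∅ h0 (by simp)
    exact transfer V 4 B hB _ hTK
  · exact final 4 le_rfl V hV hspan hsimp
  · exact final 5 (by omega) V hV hspan hsimp

end Pool.Agent.Work.MP_5f857a_co.L
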