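import Pool.Agent.Work.MP_5f857a_co.L.ConB

/-!
MODULE Arc: the graph of the link of a face with `d - 2` vertices is a cycle; any three of its vertices
are joined by three arcs.
-/

set_option autoImplicit false

namespace Pool.Agent.Work.MP_5f857a_co.L

variable {α : Type*}

private theorem arc_path {G : SimpleGraph α} {S : Set α} {a b : α} (h : Con G S a b) :
    ∃ p : G.Walk a b, p.IsPath ∧ ∀ x ∈ p.support, x ∈ S := by
  classical
  obtain ⟨p, hp⟩ := h
  exact ⟨p.bypass, p.bypass_isPath, fun x hx => hp x (p.support_bypass_subset_support hx)⟩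

/-- an interior vertex of a path has two neighbours on the path -/
private theorem arc_interior {G : SimpleGraph α} {a b u : α} (p : G.Walk a b) (hp : p.IsPath)
    (hu : u ∈ p.support) (hua : u ≠ a) (hub : u ≠ b) :
    ∃ v ∈ p.support, ∃ w ∈ p.support, v ≠ w ∧ G.Adj u v ∧ G.Adj u w := by
  induction p with
  | nil => simp at hu; exact absurd hu hua
  | cons hadj p ih =>
    rename_i a a' b
    rw [SimpleGraph.Walk.cons_isPath_iff] at hp
    have hu' : u ∈ p.support := by simpa [hua] using hu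
    by_cases h1 : u = a'
    · subst h1
      cases p with
      | nil => exact absurd rfl hub
      | cons hadj2 q =>
        rename_i c
        refine ⟨a, by simp, c, by simp, ?_, hadj.symm, hadj2⟩
        rintro rfl
        exact hp.2 (by simp)
    · obtain ⟨v, hv, w, hw, h2⟩ := ih hp.1 hu' h1 hub
      exact ⟨v, by simp [hv], w, by simp [hw], h2⟩

private theorem arc_meet {G : SimpleGraph α} {z₁ z₂ c : α}
    (hdeg : ∀ u x y z, G.Adj u x → G.Adj u y → G.Adj u z → x = y ∨ x = z ∨ y = z)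
    (p : G.Walk z₁ z₂) (hp : p.IsPath) (r : G.Walk c z₁) (hr : r.IsPath) (hc : c ∉ p.support)
    (h2 : z₂ ∉ r.support) (v : α) (hv : v ∈ r.support) (hvp : v ∈ p.support) : v = z₁ := by
  induction r with
  | nil => simpa using hv
  | cons hadj r ih =>
    rename_i c c' b
    rw [SimpleGraph.Walk.cons_isPath_iff] at hr
    have h2' : z₂ ∉ r.support := fun h => h2 (by simp [h])
    have hvr : v ∈ r.support := by
      rw [SimpleGraph.Walk.support_cons, List.mem_cons] at hv
      rcases hv with rfl | h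
      · exact absurd hvp hc
      · exact h
    by_cases hc' : c' ∈ p.support
    · have hcb : c' = b := by
        by_contra hne
        have h2c : c' ≠ z₂ := fun h => h2' (h ▸ r.start_mem_support)
        obtain ⟨x, hx, y, hy, hxy, h3, h4⟩ := arc_interior p hp hc' hne h2c
        rcases hdeg c' x y c h3 h4 hadj.symm with h | h | h
        · exact hxy h
        · exact hc (h ▸ hx)
        · exact hc (h ▸ hy)
      subst hcb
      have hnil := SimpleGraph.Walk.isPath_iff_nil.1 hr.1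
      rw [SimpleGraph.Walk.nil_iff_support_eq.1 hnil] at hvr
      simpa using hvr
    · exact ih p hp hr.1 hc' h2' hvr hvp

private theorem arc_disj {G : SimpleGraph α} {z₁ z₂ z₃ : α}
    (hdeg : ∀ u x y z, G.Adj u x → G.Adj u y → G.Adj u z → x = y ∨ x = z ∨ y = z)
    (p : G.Walk z₁ z₂) (hp : p.IsPath) (q : G.Walk z₁ z₃) (hq : q.IsPath) (h3 : z₃ ∉ p.support)
    (h2 : z₂ ∉ q.support) (v : α) (hvp : v ∈ p.support) (hvq : v ∈ q.support) : v = z₁ :=
  arc_meet hdeg p hp q.reverse hq.reverse h3 (by simpa using h2) v (by simpa using hvq) hvp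

theorem arc [DecidableEq α] {Fc : Finset α → Prop} {d : ℕ} (hG : Good Fc d) (σ : Finset α)
    (hσ : Fc σ) (hd : σ.card + 2 = d) (T : Finset α) (hT : T.card = 3) (hTσ : ∀ t ∈ T, t ∈ Lk Fc σ) :
    TK (Gr Fc σ) T (Lk Fc σ) := by
  classical
  have hdeg : ∀ u x y z, (Gr Fc σ).Adj u x → (Gr Fc σ).Adj u y → (Gr Fc σ).Adj u z →
      x = y ∨ x = z ∨ y = z := by
    intro u x y z hx hy hz
    have hu : u ∈ Lk Fc σ := (hG.lk_of_adj hx).1
    refine hG.up (insert u σ) hu.2 ?_ x ((gr_adj_iff hu.1).1 hx) y ((gr_adj_iff hu.1).1 hy) z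
      ((gr_adj_iff hu.1).1 hz)
    rw [Finset.card_insert_of_notMem hu.1]
    omega
  have hpath : ∀ a ∈ T, ∀ b ∈ T, ∀ c ∈ T, a ≠ b → a ≠ c → b ≠ c →
      ∃ p : (Gr Fc σ).Walk a b, p.IsPath ∧ c ∉ p.support ∧ ∀ x ∈ p.support, x ∈ Lk Fc σ := by
    intro a ha b hb c hc hab hac hbc
    have h := hG.conn σ hσ 2 le_rfl hd {c} (by simp) a (hTσ a ha) (by simpa using hac) b
      (hTσ b hb) (by simpa using hbc)
    have h' := h.restrict (P := Lk Fc σ) (hTσ a ha) fun _ _ _ _ hadj _ => (hG.lk_of_adj hadj).2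
    obtain ⟨p, hp, hps⟩ := arc_path h'
    exact ⟨p, hp, fun hc => (hps c hc).2 (by simp), fun x hx => (hps x hx).1⟩
  obtain ⟨z₁, z₂, z₃, h12, h13, h23, rfl⟩ := Finset.card_eq_three.1 hT
  have m1 : z₁ ∈ ({z₁, z₂, z₃} : Finset α) := by simp
  have m2 : z₂ ∈ ({z₁, z₂, z₃} : Finset α) := by simp
  have m3 : z₃ ∈ ({z₁, z₂, z₃} : Finset α) := by simp
  obtain ⟨p, hp, hp3, hpL⟩ := hpath z₁ m1 z₂ m2 z₃ m3 h12 h13 h23
  obtain ⟨q, hq, hq2, hqL⟩ := hpath z₁ m1 z₃ m3 z₂ m2 h13 h12 h23.symm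
  obtain ⟨r, hr, hr1, hrL⟩ := hpath z₂ m2 z₃ m3 z₁ m1 h23 h12.symm h13.symm
  have e1 : ∀ v, v ∈ p.support → v ∈ q.support → v = z₁ :=
    fun v h h' => arc_disj hdeg p hp q hq hp3 hq2 v h h'
  have e2 : ∀ v, v ∈ p.support → v ∈ r.support → v = z₂ := by
    intro v h h'
    refine arc_disj hdeg p.reverse hp.reverse r hr (by simpa using hp3) hr1 v (by simpa using h) h'
  have e3 : ∀ v, v ∈ q.support → v ∈ r.support → v = z₃ := by
    intro v h h'
    refine arc_disj hdeg q.reverse hq.reverse r.reverse hr.reverse (by simpa using hq2)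
      (by simpa using hr1) v (by simpa using h) (by simpa using h')
  set W : Sym2 α → Set α := fun s => if s = s(z₁, z₂) then {v | v ∈ p.support} else
    if s = s(z₁, z₃) then {v | v ∈ q.support} else
    if s = s(z₂, z₃) then {v | v ∈ r.support} else ∅ with hW
  have n1 : s(z₁, z₃) ≠ s(z₁, z₂) := by
    rw [Ne, Sym2.eq_iff]
    rintro (⟨-, h⟩ | ⟨h, -⟩)
    · exact h23 h.symm
    · exact h12 h
  have n2 : s(z₂, z₃) ≠ s(z₁, z₂) := by
    rw [Ne, Sym2.eq_iff]
    rintro (⟨h, -⟩ | ⟨-, h⟩)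
    · exact h12 h.symm
    · exact h13 h.symm
  have n3 : s(z₂, z₃) ≠ s(z₁, z₃) := by
    rw [Ne, Sym2.eq_iff]
    rintro (⟨h, -⟩ | ⟨h, -⟩)
    · exact h12 h.symm
    · exact h23 h
  have w1 : W s(z₁, z₂) = {v | v ∈ p.support} := by simp only [hW, if_true]
  have w2 : W s(z₁, z₃) = {v | v ∈ q.support} := by simp only [hW, if_neg n1, if_true]
  have w3 : W s(z₂, z₃) = {v | v ∈ r.support} := by
    simp only [hW, if_neg n2, if_neg n3, if_true]
  have w0 : ∀ s, s ≠ s(z₁, z₂) → s ≠ s(z₁, z₃) → s ≠ s(z₂, z₃) → W s = ∅ := by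
    intro s h1 h2 h3
    simp only [hW, if_neg h1, if_neg h2, if_neg h3]
  have wc : ∀ s, s = s(z₁, z₂) ∨ s = s(z₁, z₃) ∨ s = s(z₂, z₃) ∨ W s = ∅ := by
    intro s
    by_cases h1 : s = s(z₁, z₂)
    · exact Or.inl h1
    by_cases h2 : s = s(z₁, z₃)
    · exact Or.inr (Or.inl h2)
    by_cases h3 : s = s(z₂, z₃)
    · exact Or.inr (Or.inr (Or.inl h3))
    exact Or.inr (Or.inr (Or.inr (w0 s h1 h2 h3)))
  have key : ∀ a b : α, ∀ S : Set α, Con (Gr Fc σ) S a b →
      (∀ t ∈ ({z₁, z₂, z₃} : Finset α), t ∈ S → t = a ∨ t = b) →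
      Con (Gr Fc σ) ({a, b} ∪ S \ ↑({z₁, z₂, z₃} : Finset α)) a b := by
    intro a b S h hS
    refine h.mono le_rfl fun t ht => ?_
    by_cases htT : t ∈ ({z₁, z₂, z₃} : Finset α)
    · rcases hS t htT ht with h | h
      · exact Or.inl (Or.inl h)
      · exact Or.inl (Or.inr h)
    · exact Or.inr ⟨ht, by exact_mod_cast htT⟩
  have c12 : Con (Gr Fc σ) ({z₁, z₂} ∪ W s(z₁, z₂) \ ↑({z₁, z₂, z₃} : Finset α)) z₁ z₂ := by
    rw [w1]
    refine key _ _ _ ⟨p, fun _ h => h⟩ ?_
    intro t ht htp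
    simp only [Finset.mem_insert, Finset.mem_singleton] at ht
    rcases ht with rfl | rfl | rfl
    · exact Or.inl rfl
    · exact Or.inr rfl
    · exact absurd htp hp3
  have c13 : Con (Gr Fc σ) ({z₁, z₃} ∪ W s(z₁, z₃) \ ↑({z₁, z₂, z₃} : Finset α)) z₁ z₃ := by
    rw [w2]
    refine key _ _ _ ⟨q, fun _ h => h⟩ ?_
    intro t ht htp
    simp only [Finset.mem_insert, Finset.mem_singleton] at ht
    rcases ht with rfl | rfl | rfl
    · exact Or.inl rfl
    · exact absurd htp hq2
    · exact Or.inr rfl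
  have c23 : Con (Gr Fc σ) ({z₂, z₃} ∪ W s(z₂, z₃) \ ↑({z₁, z₂, z₃} : Finset α)) z₂ z₃ := by
    rw [w3]
    refine key _ _ _ ⟨r, fun _ h => h⟩ ?_
    intro t ht htp
    simp only [Finset.mem_insert, Finset.mem_singleton] at ht
    rcases ht with rfl | rfl | rfl
    · exact absurd htp hr1
    · exact Or.inl rfl
    · exact Or.inr rfl
  have csym : ∀ a b, Con (Gr Fc σ) ({a, b} ∪ W s(a, b) \ ↑({z₁, z₂, z₃} : Finset α)) a b →
      Con (Gr Fc σ) ({b, a} ∪ W s(b, a) \ ↑({z₁, z₂, z₃} : Finset α)) b a := by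
    intro a b h
    rw [Set.pair_comm b a, Sym2.eq_swap]
    exact h.symm
  refine ⟨fun s => W s \ ↑({z₁, z₂, z₃} : Finset α), ?_, ?_, ?_, ?_⟩
  · intro a ha b hb hab
    simp only [Finset.mem_insert, Finset.mem_singleton] at ha hb
    rcases ha with rfl | rfl | rfl <;> rcases hb with rfl | rfl | rfl
    · exact absurd rfl hab
    · exact c12
    · exact c13
    · exact csym _ _ c12
    · exact absurd rfl hab
    · exact c23
    · exact csym _ _ c13
    · exact csym _ _ c23
    · exact absurd rfl hab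
  · rintro s v ⟨hv, -⟩
    rcases wc s with rfl | rfl | rfl | h
    · rw [w1] at hv
      exact hpL v hv
    · rw [w2] at hv
      exact hqL v hv
    · rw [w3] at hv
      exact hrL v hv
    · rw [h] at hv
      exact absurd hv (Set.notMem_empty _)
  · intro s x hx hxs
    exact hxs.2 (by exact_mod_cast hx)
  · intro s t hst
    have hdis : ∀ v, v ∈ W s → v ∈ W t → v ∈ ({z₁, z₂, z₃} : Finset α) := by
      intro v hs ht
      rcases wc s with rfl | rfl | rfl | h
      · rcases wc t with rfl | rfl | rfl | h'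
        · exact absurd rfl hst
        · rw [w1] at hs; rw [w2] at ht
          rw [e1 v hs ht]; exact m1
        · rw [w1] at hs; rw [w3] at ht
          rw [e2 v hs ht]; exact m2
        · rw [h'] at ht; exact absurd ht (Set.notMem_empty _)
      · rcases wc t with rfl | rfl | rfl | h'
        · rw [w2] at hs; rw [w1] at ht
          rw [e1 v ht hs]; exact m1
        · exact absurd rfl hst
        · rw [w2] at hs; rw [w3] at ht
          rw [e3 v hs ht]; exact m3
        · rw [h'] at ht; exact absurd ht (Set.notMem_empty _)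
      · rcases wc t with rfl | rfl | rfl | h'
        · rw [w3] at hs; rw [w1] at ht
          rw [e2 v ht hs]; exact m2
        · rw [w3] at hs; rw [w2] at ht
          rw [e3 v ht hs]; exact m3
        · exact absurd rfl hst
        · rw [h'] at ht; exact absurd ht (Set.notMem_empty _)
      · rw [h] at hs; exact absurd hs (Set.notMem_empty _)
    rw [Set.disjoint_left]
    intro v hs ht
    exact hs.2 (by exact_mod_cast hdis v hs.1 ht.1)

end Pool.Agent.Work.MP_5f857a_co.L
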