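import Pool.Agent.Work.MP_5f857a_co.L.FanO
import Pool.Agent.Work.MP_5f857a_co.L.Arc
import Pool.Agent.Work.MP_5f857a_co.L.TKOps

/-!
MODULE Ae (M): the link graph of a face with `d - e` vertices (`e ≥ 3`) plus one new edge `xy` between
non-adjacent vertices contains a subdivision of the complete graph on `e + 2` vertices.
-/

set_option autoImplicit false

namespace Pool.Agent.Work.MP_5f857a_co.L

variable {α : Type*}

/-- CASE A of the proof: if the `e` vertices of the fan from `y` carry a subdivision of the complete graph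
inside the link of `x`, add `x` and `y`. -/
private theorem caseA [DecidableEq α] {Fc : Finset α → Prop} {d : ℕ} (hG : Good Fc d)
    (σ : Finset α) (e : ℕ) (x y : α) (hx : x ∈ Lk Fc σ) (hy : y ∈ Lk Fc σ) (hxy : x ≠ y)
    (hn : ¬ (Gr Fc σ).Adj x y) (T : Finset α) (hTc : T.card = e)
    (hTB : ∀ t ∈ T, t ∈ Bd (Gr Fc σ) (OO Fc σ x y)) (J : α → Set α)
    (hJ : ∀ t ∈ T, Con (Gr Fc σ) ({y, t} ∪ J t) y t) (hJO : ∀ t ∈ T, J t ⊆ OO Fc σ x y \ {y})
    (hJd : ∀ t ∈ T, ∀ t' ∈ T, t ≠ t' → Disjoint (J t) (J t'))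
    (hTK : TK (Gr Fc (insert x σ)) T (Lk Fc (insert x σ))) :
    ∃ B : Finset α, B.card = e + 2 ∧ (∀ b ∈ B, b ∈ Lk Fc σ) ∧
        TK (Gr Fc σ ⊔ vE x y) B (Lk Fc σ) := by
  have hTL : ∀ t ∈ T, t ∈ Lk Fc (insert x σ) := fun t ht => bd_OO_sub hx.1 (hTB t ht)
  have hyL : y ∉ Lk Fc (insert x σ) := fun h => hn ((gr_adj_iff hx.1).2 h)
  have hxT : x ∉ T := fun h => not_mem_lk_insert (hTL x h)
  have hyT : y ∉ T := fun h => hyL (hTL y h)
  have hxO : x ∉ OO Fc σ x y := fun h => (OO_not_mem h).1 rfl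
  refine ⟨insert x (insert y T), ?_, ?_, ?_⟩
  · rw [Finset.card_insert_of_notMem, Finset.card_insert_of_notMem hyT, hTc]
    rw [Finset.mem_insert, not_or]
    exact ⟨hxy, hxT⟩
  · intro b hb
    rw [Finset.mem_insert, Finset.mem_insert] at hb
    rcases hb with rfl | rfl | hb
    · exact hx
    · exact hy
    · exact lk_insert_sub hG (hTL b hb)
  · have h1 : TK (Gr Fc σ ⊔ vE x y) (insert x (insert y T))
        (Lk Fc (insert x σ) ∪ (OO Fc σ x y \ {y})) := by
      refine TK.poles (J := J) ?_ ?_ hyT ?_ ?_ hJO hJd ?_ ?_ ?_ ?_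
      · right
        rw [vE_adj]
        exact ⟨hxy, Or.inl ⟨rfl, rfl⟩⟩
      · intro t ht
        left
        exact (gr_adj_iff hx.1).2 (hTL t ht)
      · exact hTK.mono ((gr_insert_le hG).trans le_sup_left) subset_rfl
      · intro t ht
        exact (hJ t ht).mono le_sup_left subset_rfl
      · intro t ht hO
        exact (OO_not_mem hO.1).2 (hTL t ht)
      · rw [Set.disjoint_left]
        intro v hv hvL
        exact (OO_not_mem hv.1).2 hvL
      · rintro (h | h)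
        · exact not_mem_lk_insert h
        · exact hxO h.1
      · rintro (h | h)
        · exact hyL h
        · exact h.2 rfl
    refine h1.mono le_rfl (Set.union_subset (lk_insert_sub hG) ?_)
    exact Set.diff_subset.trans (OO_sub hG hy)

/-- CASE (i): two boundary vertices `z ≠ z'` not adjacent in the link of `x`. -/
theorem step_i [DecidableEq α] {Fc : Finset α → Prop} {d : ℕ} (hG : Good Fc d)
    (σ : Finset α) (m : ℕ) (x y : α) (hx : x ∈ Lk Fc σ) (hy : y ∈ Lk Fc σ) (z z' : α)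
    (hz : z ∈ Bd (Gr Fc σ) (OO Fc σ x y)) (hz' : z' ∈ Bd (Gr Fc σ) (OO Fc σ x y))
    (hB : ∃ B : Finset α, B.card = m ∧ (∀ b ∈ B, b ∈ Lk Fc (insert x σ)) ∧
        TK (Gr Fc (insert x σ) ⊔ vE z z') B (Lk Fc (insert x σ))) :
    ∃ B : Finset α, B.card = m + 1 ∧ (∀ b ∈ B, b ∈ Lk Fc σ) ∧ TK (Gr Fc σ) B (Lk Fc σ) := by
  obtain ⟨B, hBc, hBL, hTK⟩ := hB
  have hxB : x ∉ B := fun h => not_mem_lk_insert (hBL x h)
  have hxO : x ∉ OO Fc σ x y := fun h => (OO_not_mem h).1 rfl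
  have hdis : Disjoint (OO Fc σ x y) (Lk Fc (insert x σ)) := by
    rw [Set.disjoint_left]
    intro v hv hvL
    exact (OO_not_mem hv).2 hvL
  have h1 : TK (Gr Fc σ) B (Lk Fc (insert x σ) ∪ OO Fc σ x y) :=
    hTK.replace (gr_insert_le hG) (bd_conn hz hz')
      (fun b hb hbO => Set.disjoint_left.1 hdis hbO (hBL b hb)) hdis
  have h2 : TK (Gr Fc σ) (insert x B) (Lk Fc (insert x σ) ∪ OO Fc σ x y) := by
    refine h1.apex le_rfl hxB ?_ ?_
    · rintro (h | h)
      · exact not_mem_lk_insert h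
      · exact hxO h
    · intro b hb
      exact (gr_adj_iff hx.1).2 (hBL b hb)
  refine ⟨insert x B, ?_, ?_, ?_⟩
  · rw [Finset.card_insert_of_notMem hxB, hBc]
  · intro b hb
    rw [Finset.mem_insert] at hb
    rcases hb with rfl | hb
    · exact hx
    · exact lk_insert_sub hG (hBL b hb)
  · exact h2.mono le_rfl (Set.union_subset (lk_insert_sub hG) (OO_sub hG hy))

theorem Ae [Fintype α] [DecidableEq α] {Fc : Finset α → Prop} {d : ℕ} (hG : Good Fc d) (e : ℕ)
    (he : 3 ≤ e) :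
    ∀ σ : Finset α, Fc σ → σ.card + e = d → ∀ x ∈ Lk Fc σ, ∀ y ∈ Lk Fc σ, x ≠ y →
      ¬ (Gr Fc σ).Adj x y →
      ∃ B : Finset α, B.card = e + 2 ∧ (∀ b ∈ B, b ∈ Lk Fc σ) ∧
        TK (Gr Fc σ ⊔ vE x y) B (Lk Fc σ) := by
  induction e, he using Nat.le_induction with
  | base =>
    intro σ hσ hd x hx y hy hxy hn
    obtain ⟨T, hTc, hTB, J, hJ, hJO, hJd⟩ := fanO hG σ hσ 3 (by omega) hd x y hx hy hxy hn
    have hTL : ∀ t ∈ T, t ∈ Lk Fc (insert x σ) := fun t ht => bd_OO_sub hx.1 (hTB t ht)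
    have hcard : (insert x σ).card + 2 = d := by
      rw [Finset.card_insert_of_notMem hx.1]
      omega
    exact caseA hG σ 3 x y hx hy hxy hn T hTc hTB J hJ hJO hJd
      (arc hG (insert x σ) hx.2 hcard T hTc hTL)
  | succ e he ih =>
    intro σ hσ hd x hx y hy hxy hn
    have hcard : (insert x σ).card + e = d := by
      rw [Finset.card_insert_of_notMem hx.1]
      omega
    by_cases hcl : ∀ z ∈ Bd (Gr Fc σ) (OO Fc σ x y), ∀ z' ∈ Bd (Gr Fc σ) (OO Fc σ x y), z ≠ z' →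
        (Gr Fc (insert x σ)).Adj z z'
    · obtain ⟨T, hTc, hTB, J, hJ, hJO, hJd⟩ :=
        fanO hG σ hσ (e + 1) (by omega) hd x y hx hy hxy hn
      exact caseA hG σ (e + 1) x y hx hy hxy hn T hTc hTB J hJ hJO hJd
        (TK.clique fun a ha b hb hab => hcl a (hTB a ha) b (hTB b hb) hab)
    · push Not at hcl
      obtain ⟨z, hz, z', hz', hzz, hnadj⟩ := hcl
      have hB := ih (insert x σ) hx.2 hcard z (bd_OO_sub hx.1 hz) z' (bd_OO_sub hx.1 hz') hzz hnadj
      obtain ⟨B, hBc, hBL, hTK⟩ := step_i hG σ (e + 2) x y hx hy z z' hz hz' hB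
      exact ⟨B, by omega, hBL, hTK.mono le_sup_left subset_rfl⟩

end Pool.Agent.Work.MP_5f857a_co.L
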