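import Pool.Agent.Work.MP_5f857a_co.L.ConB

/-!
MODULE NoCliques (M, pure graph theory): a highly connected graph with an involution cannot have all its
antipodal separators equal to cliques of size `d`.
-/

set_option autoImplicit false

namespace Pool.Agent.Work.MP_5f857a_co.L

variable {α : Type*}

/-- the image of a connection under an automorphism -/
private theorem Con.image {G : SimpleGraph α} {ν : α → α} (haut : ∀ a b, G.Adj a b → G.Adj (ν a) (ν b))
    {S T : Set α} {a b : α} (hST : ∀ x ∈ S, ν x ∈ T) (h : Con G S a b) : Con G T (ν a) (ν b) := by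
  obtain ⟨p, hp⟩ := h
  induction p with
  | nil => exact Con.refl (hST _ (hp _ (by simp)))
  | cons hadj p ih =>
    exact (Con.adj (haut _ _ hadj) (hST _ (hp _ (by simp))) (hST _ (hp _ (by simp)))).trans
      (ih fun x hx => hp x (by simp [hx]))

/-- a walk starting in `O` that avoids the boundary of `O` stays in `O` -/
private theorem Con.stay {G : SimpleGraph α} {S O : Set α} {a b : α} (h : Con G S a b) (ha : a ∈ O)
    (hS : ∀ x ∈ Bd G O, x ∉ S) : b ∈ O := by
  by_contra hb
  obtain ⟨x, hx, hxS, _⟩ := exit_of_con h ha hb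
  exact hS x hx hxS

theorem noCliques [Fintype α] [DecidableEq α] (G : SimpleGraph α) (V₀ : Set α) (hV : V₀.Nonempty)
    (d : ℕ) (hd : 1 ≤ d) (ν : α → α) (hν : ∀ c, ν (ν c) = c) (hνV : ∀ c ∈ V₀, ν c ∈ V₀)
    (haut : ∀ a b, G.Adj a b → G.Adj (ν a) (ν b)) (hna : ∀ c ∈ V₀, ν c ≠ c ∧ ¬ G.Adj c (ν c))
    (hGV : ∀ a b, G.Adj a b → a ∈ V₀)
    (hconn : ∀ X : Finset α, X.card < d → ∀ u ∈ V₀, u ∉ X → ∀ w ∈ V₀, w ∉ X → Con G (↑X)ᶜ u w)
    (hS : ∀ c ∈ V₀, ∃ S : Finset α, (↑S : Set α) = Bd G (Comp G (insert c {v | G.Adj c v}) (ν c)) ∧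
      S.card = d ∧ ∀ s ∈ S, ∀ t ∈ S, s ≠ t → G.Adj s t) : False := by
  classical
  -- notation
  set O : α → Set α := fun c => Comp G (insert c {v | G.Adj c v}) (ν c) with hO
  -- general facts
  have hνO : ∀ c ∈ V₀, ν c ∈ O c := by
    intro c hc
    refine mem_comp_self ?_
    rw [Set.mem_insert_iff, not_or]
    exact ⟨(hna c hc).1, (hna c hc).2⟩
  have hOnot : ∀ c v, v ∈ O c → v ≠ c ∧ ¬ G.Adj c v := by
    intro c v hv
    have := comp_not_mem hv
    rwa [Set.mem_insert_iff, not_or] at this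
  have hBdN : ∀ c s, s ∈ Bd G (O c) → G.Adj c s := by
    intro c s hs
    rcases bd_comp_sub hs with h | h
    · exfalso
      obtain ⟨_, o, ho, hadj⟩ := hs
      exact (hOnot c o ho).2 (h ▸ hadj)
    · exact h
  have hOV : ∀ c ∈ V₀, O c ⊆ V₀ := by
    intro c hc v hv
    exact Con.mem_of_closed (P := fun v => v ∈ V₀) hv (hνV c hc)
      fun a b _ _ hab _ => hGV b a hab.symm
  -- the image of O under ν
  have hOν : ∀ c v, v ∈ O c → ν v ∈ O (ν c) := by
    intro c v hv
    refine Con.image haut (S := (insert c {v | G.Adj c v})ᶜ) ?_ hv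
    intro x hx
    rw [Set.mem_compl_iff, Set.mem_insert_iff, not_or] at hx ⊢
    refine ⟨fun h => hx.1 ?_, fun h => hx.2 ?_⟩
    · rw [← hν x, h, hν]
    · have := haut _ _ h
      rwa [hν, hν] at this
  have hBν : ∀ c s, s ∈ Bd G (O c) → ν s ∈ Bd G (O (ν c)) := by
    rintro c s ⟨hs, o, ho, hadj⟩
    refine ⟨fun h => hs ?_, ν o, hOν c o ho, haut _ _ hadj⟩
    have := hOν _ _ h
    rwa [hν, hν] at this
  -- choose c with minimal O
  obtain ⟨c, hcV, hmin⟩ : ∃ c ∈ V₀, ∀ c' ∈ V₀, (O c).ncard ≤ (O c').ncard := by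
    have hfin : (V₀.toFinset).Nonempty := by
      obtain ⟨c, hc⟩ := hV
      exact ⟨c, by simpa using hc⟩
    obtain ⟨c, hc, hm⟩ := Finset.exists_min_image V₀.toFinset (fun c => (O c).ncard) hfin
    exact ⟨c, by simpa using hc, fun c' hc' => hm c' (by simpa using hc')⟩
  obtain ⟨S, hSB, hScard, hScl⟩ := hS c hcV
  have hmS : ∀ s, s ∈ S ↔ s ∈ Bd G (O c) := fun s => by
    rw [← Finset.mem_coe, hSB]
  -- ν S ⊆ O c
  have hνS : ∀ s ∈ S, ν s ∈ O c := by
    intro s hs
    have h1 : ν s ∈ Bd G (O (ν c)) := hBν c s ((hmS s).1 hs)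
    have h2 : G.Adj (ν c) (ν s) := hBdN _ _ h1
    by_contra h3
    have h4 : ν s ∈ S := (hmS _).2 ⟨h3, ν c, hνO c hcV, h2.symm⟩
    have hsV : s ∈ V₀ := hGV s c (hBdN c s ((hmS s).1 hs)).symm
    exact (hna s hsV).2 (hScl s hs (ν s) h4 (hna s hsV).1.symm)
  obtain ⟨c', hc'S⟩ : S.Nonempty := by
    rw [← Finset.card_pos]
    omega
  have hc'B : c' ∈ Bd G (O c) := (hmS c').1 hc'S
  have hc'V : c' ∈ V₀ := hGV c' c (hBdN c c' hc'B).symm
  obtain ⟨S', hSB', hScard', hScl'⟩ := hS c' hc'V
  have hmS' : ∀ s, s ∈ S' ↔ s ∈ Bd G (O c') := fun s => by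
    rw [← Finset.mem_coe, hSB']
  have hc'O' : c' ∉ O c' := fun h => (hOnot c' c' h).1 rfl
  have hc'S' : c' ∉ S' := fun h => (hBdN c' c' ((hmS' c').1 h)).ne rfl
  -- S' meets O
  obtain ⟨t, htS', htO⟩ : ∃ t ∈ S', t ∈ O c := by
    by_contra hcon
    push Not at hcon
    have hsub : O c ⊆ O c' := by
      intro v hv
      have h1 : Con G (O c) (ν c') v := comp_conn' (hνS c' hc'S) hv
      exact Con.stay h1 (hνO c' hc'V) fun x hx hxO => hcon x ((hmS' x).2 hx) hxO
    obtain ⟨_, o, ho, hadj⟩ := hc'B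
    exact hc'S' ((hmS' c').2 ⟨hc'O', o, hsub ho, hadj⟩)
  have hS'sub : ∀ s ∈ S', s ∈ O c ∨ s ∈ S := by
    intro s hs
    by_cases hst : s = t
    · left; rw [hst]; exact htO
    · by_cases hsO : s ∈ O c
      · exact Or.inl hsO
      · right
        exact (hmS s).2 ⟨hsO, t, htO, hScl' s hs t htS' hst⟩
  -- O' ⊆ O
  have hO'O : O c' ⊆ O c := by
    intro u hu
    by_contra huO
    by_cases huS : u ∈ S
    · have hne : u ≠ c' := (hOnot c' u hu).1
      exact (hOnot c' u hu).2 (hScl c' hc'S u huS hne.symm)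
    · -- the component K of u in G - S
      have huV : u ∈ V₀ := hOV c' hc'V hu
      set K : Set α := Comp G (↑S : Set α) u with hK
      have huK : u ∈ K := mem_comp_self (by simpa using huS)
      have hKO : ∀ v ∈ K, v ∉ O c := by
        intro v hv hvO
        have h1 : Con G (↑S : Set α)ᶜ v u := Con.symm hv
        exact huO (Con.stay h1 hvO fun x hx hxS => hxS ((hmS x).2 hx))
      have hc'K : c' ∈ Bd G K := by
        by_contra hno
        have hcard : (S.erase c').card < d := by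
          rw [Finset.card_erase_of_mem hc'S, hScard]
          omega
        have hu' : u ∉ S.erase c' := fun h => huS (Finset.mem_of_mem_erase h)
        have hνc : ν c ∉ S.erase c' := by
          intro h
          exact ((hmS _).1 (Finset.mem_of_mem_erase h)).1 (hνO c hcV)
        have hcon := hconn _ hcard u huV hu' (ν c) (hνV c hcV) hνc
        have hin : ν c ∈ K := by
          refine Con.stay hcon huK ?_
          intro x hx hxS
          have hxS' : x ∈ S := by
            have := bd_comp_sub hx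
            simpa using this
          apply hxS
          rw [Finset.mem_coe, Finset.mem_erase]
          exact ⟨fun h => hno (h ▸ hx), hxS'⟩
        exact hKO _ hin (hνO c hcV)
      obtain ⟨_, k, hk, hadj⟩ := hc'K
      have hcon : Con G (K ∪ {c'}) u c' :=
        ((comp_conn' huK hk).mono le_rfl Set.subset_union_left).trans
          (Con.adj hadj.symm (Or.inl hk) (Or.inr rfl))
      refine hc'O' (Con.stay hcon hu ?_)
      intro x hx hxK
      have hxS' : x ∈ S' := (hmS' x).2 hx
      rcases hxK with hxK | hxK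
      · rcases hS'sub x hxS' with h | h
        · exact hKO x hxK h
        · exact (comp_not_mem hxK) (by simpa using h)
      · rw [Set.mem_singleton_iff] at hxK
        exact hc'S' (hxK ▸ hxS')
  -- contradiction
  have hlt : (O c').ncard < (O c).ncard := by
    refine Set.ncard_lt_ncard ⟨hO'O, fun h => ?_⟩ (Set.toFinite _)
    exact ((hmS' t).1 htS').1 (h htO)
  exact absurd (hmin c' hc'V) (not_le.2 hlt)

end Pool.Agent.Work.MP_5f857a_co.L
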