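import Pool.Agent.Work.MP_5f857a_co.L.Ae
import Pool.Agent.Work.MP_5f857a_co.L.NoCliques

/-!
MODULE Antip (S-M): assembly of the combinatorial part.
-/

set_option autoImplicit false

namespace Pool.Agent.Work.MP_5f857a_co.L

variable {α : Type*}

theorem antip [Fintype α] [DecidableEq α] {Fc : Finset α → Prop} {d : ℕ} (hG : Good Fc d)
    (h0 : Fc ∅) (hd : 4 ≤ d) (ν : α → α) (hν : ∀ x, ν (ν x) = x)
    (hF : ∀ T : Finset α, Fc T → Fc (T.image ν)) (hA : ∀ T : Finset α, Fc T → ∀ x ∈ T, ν x ∉ T) :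
    ∃ B : Finset α, B.card = d + 2 ∧ TK (Gr Fc ∅) B Set.univ := by
  classical
  by_contra hno
  push Not at hno
  have hsing : ∀ c, c ∈ Lk Fc ∅ ↔ Fc {c} := by
    intro c
    rw [mem_lk]
    simp
  have hνinj : Function.Injective ν := fun a b h => by rw [← hν a, h, hν]
  have hνV : ∀ c ∈ Lk Fc ∅, ν c ∈ Lk Fc ∅ := by
    intro c hc
    rw [hsing] at hc ⊢
    have := hF _ hc
    rwa [Finset.image_singleton] at this
  have hna : ∀ c ∈ Lk Fc ∅, ν c ≠ c ∧ ¬ (Gr Fc ∅).Adj c (ν c) := by
    intro c hc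
    constructor
    · intro h
      exact hA {c} ((hsing c).1 hc) c (by simp) (by simp [h])
    · intro h
      exact hA _ h.2.2.2 c (by simp) (by simp)
  have hnbr : ∀ c, (Lk Fc (insert c ∅)) = {v | (Gr Fc ∅).Adj c v} := by
    intro c
    ext v
    exact (gr_adj_iff (Finset.notMem_empty c)).symm
  refine noCliques (Gr Fc ∅) (Lk Fc ∅) ?_ d (by omega) ν hν hνV ?_ hna ?_ ?_ ?_
  · obtain ⟨w, hw, _⟩ := hG.low ∅ h0 d (by omega) (by simp) ∅ (by simp)
    exact ⟨w, hw⟩
  · rintro a b ⟨hab, _, _, h⟩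
    refine ⟨fun h' => hab (hνinj h'), Finset.notMem_empty _, Finset.notMem_empty _, ?_⟩
    have := hF _ h
    simpa using this
  · intro a b h
    exact (hG.lk_of_adj h).1
  · intro X hX u hu huX w hw hwX
    exact hG.conn ∅ h0 d (by omega) (by simp) X hX u hu huX w hw hwX
  · intro c hc
    have hνc := hνV c hc
    have hcν : c ≠ ν c := fun h => (hna c hc).1 h.symm
    have hFc : Fc (insert c ∅) := hc.2
    have hcard : (insert c (∅ : Finset α)).card + (d - 1) = d := by
      rw [Finset.card_insert_of_notMem (Finset.notMem_empty c)]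
      simp only [Finset.card_empty]
      omega
    -- the boundary as a finset
    set N : Finset α := (Bd (Gr Fc ∅) (OO Fc ∅ c (ν c))).toFinset with hN
    have hmN : ∀ s, s ∈ N ↔ s ∈ Bd (Gr Fc ∅) (OO Fc ∅ c (ν c)) := fun s => by simp [hN]
    have hNL : ∀ s ∈ N, s ∈ Lk Fc (insert c ∅) := fun s hs =>
      bd_OO_sub (Finset.notMem_empty c) ((hmN s).1 hs)
    have hcN : c ∉ N := fun h => not_mem_lk_insert (hNL c h)
    -- clique
    have hcl : ∀ s ∈ N, ∀ t ∈ N, s ≠ t → (Gr Fc (insert c ∅)).Adj s t := by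
      intro z hz z' hz' hzz
      by_contra hnadj
      have hB := Ae hG (d - 1) (by omega) (insert c ∅) hFc hcard z (hNL z hz) z' (hNL z' hz') hzz hnadj
      obtain ⟨B, hBc, _, hTK⟩ := step_i hG ∅ (d - 1 + 2) c (ν c) hc hνc z z' ((hmN z).1 hz)
        ((hmN z').1 hz') hB
      exact hno B (by omega) (hTK.mono le_rfl (Set.subset_univ _))
    have hge : d ≤ N.card := by
      by_contra hlt
      rw [not_le] at hlt
      have hνN : ν c ∉ N := fun h =>
        ((hmN _).1 h).1 (mem_OO_self (Finset.notMem_empty c) hcν (hna c hc).2)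
      have hcon := hG.conn ∅ h0 d (by omega) (by simp) N hlt (ν c) hνc hνN c hc hcN
      obtain ⟨a, ha, haN, _⟩ := exit_of_con hcon
        (mem_OO_self (Finset.notMem_empty c) hcν (hna c hc).2) (fun h => (OO_not_mem h).1 rfl)
      exact haN ((hmN a).2 ha)
    have hle : N.card ≤ d := by
      by_contra hlt
      rw [not_le] at hlt
      obtain ⟨N', hN', hN'c⟩ := Finset.exists_subset_card_eq hlt
      have hcN' : c ∉ N' := fun h => hcN (hN' h)
      refine hno (insert c N') ?_ (TK.clique ?_)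
      · rw [Finset.card_insert_of_notMem hcN', hN'c]
      · intro a ha b hb hab
        rw [Finset.mem_insert] at ha hb
        rcases ha with rfl | ha
        · rcases hb with rfl | hb
          · exact absurd rfl hab
          · exact (gr_adj_iff (Finset.notMem_empty _)).2 (hNL b (hN' hb))
        · rcases hb with rfl | hb
          · exact ((gr_adj_iff (Finset.notMem_empty _)).2 (hNL a (hN' ha))).symm
          · exact gr_insert_le hG (hcl a (hN' ha) b (hN' hb) hab)
    refine ⟨N, ?_, le_antisymm hle hge, fun s hs t ht hst => gr_insert_le hG (hcl s hs t ht hst)⟩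
    rw [← hnbr c]
    ext s
    rw [Finset.mem_coe, hmN]
    rfl

end Pool.Agent.Work.MP_5f857a_co.L
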