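import Pool.Agent.Work.MP_5f857a_co.L.Defs

/-!
Basic lemmas on `Con`, `Comp`, `Bd`, `Gr`, `Lk` (MP_5f857a_co).
-/

set_option autoImplicit false

namespace Pool.Agent.Work.MP_5f857a_co.L

variable {α : Type*} {G H : SimpleGraph α} {S T O : Set α} {a b c u v w y : α}

theorem Con.refl (h : a ∈ S) : Con G S a a :=
  ⟨SimpleGraph.Walk.nil, by simpa using h⟩

theorem Con.symm (h : Con G S a b) : Con G S b a := by
  obtain ⟨p, hp⟩ := h
  exact ⟨p.reverse, by simpa using hp⟩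

theorem Con.trans (h : Con G S a b) (h' : Con G S b c) : Con G S a c := by
  obtain ⟨p, hp⟩ := h
  obtain ⟨q, hq⟩ := h'
  refine ⟨p.append q, fun x hx => ?_⟩
  rw [SimpleGraph.Walk.mem_support_append_iff] at hx
  rcases hx with hx | hx
  · exact hp x hx
  · exact hq x hx

theorem Con.mono (hG : G ≤ H) (hS : S ⊆ T) (h : Con G S a b) : Con H T a b := by
  obtain ⟨p, hp⟩ := h
  refine ⟨p.mapLe hG, fun x hx => ?_⟩
  rw [SimpleGraph.Walk.support_mapLe_eq_support] at hx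
  exact hS (hp x hx)

theorem Con.adj (h : G.Adj a b) (ha : a ∈ S) (hb : b ∈ S) : Con G S a b :=
  ⟨h.toWalk, by
    intro x hx
    simp only [SimpleGraph.Walk.support_cons, SimpleGraph.Walk.support_nil, List.mem_cons,
      List.not_mem_nil, or_false] at hx
    rcases hx with rfl | rfl
    · exact ha
    · exact hb⟩

theorem Con.left (h : Con G S a b) : a ∈ S := by
  obtain ⟨p, hp⟩ := h
  exact hp a p.start_mem_support

theorem Con.right (h : Con G S a b) : b ∈ S := by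
  obtain ⟨p, hp⟩ := h
  exact hp b p.end_mem_support

theorem mem_comp_self (hy : y ∉ S) : y ∈ Comp G S y := Con.refl hy

theorem comp_not_mem (hv : v ∈ Comp G S y) : v ∉ S := Con.right hv

theorem comp_adj (hv : v ∈ Comp G S y) (h : G.Adj v w) (hw : w ∉ S) : w ∈ Comp G S y :=
  Con.trans hv (Con.adj h (comp_not_mem hv) hw)

/-- a set containing `u` and closed under the adjacency inside `S` contains everything reachable -/
theorem Con.mem_of_closed {P : α → Prop} (h : Con G S u w) (hu : P u)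
    (hcl : ∀ x y, x ∈ S → y ∈ S → G.Adj x y → P x → P y) : P w := by
  obtain ⟨p, hp⟩ := h
  induction p with
  | nil => exact hu
  | cons hadj p ih =>
    refine ih ?_ fun x hx => hp x (by simp [hx])
    exact hcl _ _ (hp _ (by simp)) (hp _ (by simp)) hadj hu

theorem Con.restrict {P : Set α} (h : Con G S u w) (hu : u ∈ P)
    (hcl : ∀ x y, x ∈ S → y ∈ S → G.Adj x y → x ∈ P → y ∈ P) : Con G (P ∩ S) u w := by
  obtain ⟨p, hp⟩ := h
  induction p with
  | nil => exact Con.refl ⟨hu, hp _ (by simp)⟩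
  | cons hadj p ih =>
    rename_i a b c
    have ha : a ∈ S := hp _ (by simp)
    have hb : b ∈ S := hp _ (by simp)
    have hb' : b ∈ P := hcl _ _ ha hb hadj hu
    exact Con.trans (Con.adj hadj ⟨hu, ha⟩ ⟨hb', hb⟩) (ih hb' fun x hx => hp x (by simp [hx]))

theorem comp_conn (hu : u ∈ Comp G S y) : Con G (Comp G S y) y u := by
  have h : Con G Sᶜ y u := hu
  have h0 : y ∈ Comp G S y := Con.refl h.left
  exact (h.restrict h0 fun a b _ hb hadj ha => comp_adj ha hadj hb).mono le_rfl Set.inter_subset_left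

theorem comp_conn' (hu : u ∈ Comp G S y) (hv : v ∈ Comp G S y) : Con G (Comp G S y) u v :=
  (comp_conn hu).symm.trans (comp_conn hv)

theorem bd_comp_sub : Bd G (Comp G S y) ⊆ S := by
  rintro s ⟨hs, o, ho, hadj⟩
  by_contra h
  exact hs (comp_adj ho hadj.symm h)

/-- two boundary vertices are joined through the component -/
theorem bd_conn (ha : a ∈ Bd G (Comp G S y)) (hb : b ∈ Bd G (Comp G S y)) :
    Con G ({a, b} ∪ Comp G S y) a b := by
  obtain ⟨_, o, ho, hao⟩ := ha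
  obtain ⟨_, o', ho', hbo⟩ := hb
  have h1 : Con G ({a, b} ∪ Comp G S y) a o := Con.adj hao (by simp) (Or.inr ho)
  have h2 : Con G ({a, b} ∪ Comp G S y) o' b := Con.adj hbo.symm (Or.inr ho') (by simp)
  exact (h1.trans ((comp_conn' ho ho').mono le_rfl Set.subset_union_right)).trans h2

/-- the first exit of a walk from `O` -/
theorem exit_of_con (h : Con G T u w) (hu : u ∈ O) (hw : w ∉ O) :
    ∃ a ∈ Bd G O, a ∈ T ∧ Con G ((O ∪ {a}) ∩ T) u a := by
  obtain ⟨p, hp⟩ := h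
  induction p with
  | nil => exact absurd hu hw
  | cons hadj p ih =>
    rename_i x z c
    have hx : x ∈ T := hp _ (by simp)
    have hz : z ∈ T := hp _ (by simp)
    by_cases hzO : z ∈ O
    · obtain ⟨a, ha, haT, hc⟩ := ih hzO hw fun t ht => hp t (by simp [ht])
      exact ⟨a, ha, haT, Con.trans (Con.adj hadj ⟨Or.inl hu, hx⟩ ⟨Or.inl hzO, hz⟩) hc⟩
    · exact ⟨z, ⟨hzO, x, hu, hadj.symm⟩, hz,
        Con.adj hadj ⟨Or.inl hu, hx⟩ ⟨Or.inr rfl, hz⟩⟩

theorem vE_adj {z z' : α} : (vE z z').Adj a b ↔ a ≠ b ∧ ((a = z ∧ b = z') ∨ (b = z ∧ a = z')) := by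
  unfold vE
  rw [SimpleGraph.fromRel_adj]

section

variable [DecidableEq α] {Fc : Finset α → Prop} {d : ℕ} {σ : Finset α} {x : α}

theorem gr_adj {z : α} : (Gr Fc σ).Adj x z ↔ x ≠ z ∧ x ∉ σ ∧ z ∉ σ ∧ Fc (insert x (insert z σ)) :=
  Iff.rfl

theorem mem_lk : x ∈ Lk Fc σ ↔ x ∉ σ ∧ Fc (insert x σ) := Iff.rfl

theorem Good.lk_of_adj (hG : Good Fc d) {z : α} (h : (Gr Fc σ).Adj x z) : x ∈ Lk Fc σ ∧ z ∈ Lk Fc σ := by
  obtain ⟨_, hx, hz, hF⟩ := h
  refine ⟨⟨hx, hG.down _ _ ?_ hF⟩, ⟨hz, hG.down _ _ ?_ hF⟩⟩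
  · intro t ht
    simp only [Finset.mem_insert] at ht ⊢
    tauto
  · intro t ht
    simp only [Finset.mem_insert] at ht ⊢
    tauto

/-- the neighbours of `x` in the link of `σ` are the vertices of the link of `σ ∪ {x}` -/
theorem gr_adj_iff {z : α} (hx : x ∉ σ) : (Gr Fc σ).Adj x z ↔ z ∈ Lk Fc (insert x σ) := by
  rw [gr_adj, mem_lk, Finset.mem_insert, Finset.insert_comm]
  constructor
  · rintro ⟨h1, _, h3, h4⟩
    exact ⟨by rintro (h | h); exacts [h1 h.symm, h3 h], h4⟩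
  · rintro ⟨h1, h4⟩
    exact ⟨fun h => h1 (Or.inl h.symm), hx, fun h => h1 (Or.inr h), h4⟩

theorem gr_insert_le (hG : Good Fc d) : Gr Fc (insert x σ) ≤ Gr Fc σ := by
  intro a b h
  obtain ⟨hab, ha, hb, hF⟩ := h
  rw [Finset.mem_insert, not_or] at ha hb
  refine ⟨hab, ha.2, hb.2, hG.down _ _ ?_ hF⟩
  intro t ht
  simp only [Finset.mem_insert] at ht ⊢
  tauto

theorem lk_insert_sub (hG : Good Fc d) : Lk Fc (insert x σ) ⊆ Lk Fc σ := by
  rintro t ⟨h1, h2⟩
  rw [Finset.mem_insert, not_or] at h1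
  refine ⟨h1.2, hG.down _ _ ?_ h2⟩
  intro s hs
  simp only [Finset.mem_insert] at hs ⊢
  tauto

theorem not_mem_lk_insert : x ∉ Lk Fc (insert x σ) := fun h => h.1 (Finset.mem_insert_self _ _)

/-- the component containing `y` of the graph of the link of `σ` minus the closed star of `x` -/
def OO (Fc : Finset α → Prop) (σ : Finset α) (x y : α) : Set α :=
  Comp (Gr Fc σ) (insert x (Lk Fc (insert x σ))) y

theorem mem_OO_self (hx : x ∉ σ) (hxy : x ≠ y) (hn : ¬ (Gr Fc σ).Adj x y) : y ∈ OO Fc σ x y := by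
  refine mem_comp_self ?_
  rw [Set.mem_insert_iff, not_or]
  exact ⟨fun h => hxy h.symm, fun h => hn ((gr_adj_iff hx).2 h)⟩

theorem OO_sub (hG : Good Fc d) (hy : y ∈ Lk Fc σ) : OO Fc σ x y ⊆ Lk Fc σ := by
  intro t ht
  have h : Con (Gr Fc σ) (insert x (Lk Fc (insert x σ)))ᶜ y t := ht
  exact Con.mem_of_closed (P := fun t => t ∈ Lk Fc σ) h hy fun a b _ _ hab _ => (hG.lk_of_adj hab).2

theorem OO_not_mem {t : α} (ht : t ∈ OO Fc σ x y) : t ≠ x ∧ t ∉ Lk Fc (insert x σ) := by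
  have := comp_not_mem ht
  rwa [Set.mem_insert_iff, not_or] at this

theorem bd_OO_sub (hx : x ∉ σ) : Bd (Gr Fc σ) (OO Fc σ x y) ⊆ Lk Fc (insert x σ) := by
  intro s hs
  have h1 := bd_comp_sub hs
  rcases h1 with h1 | h1
  · subst h1
    obtain ⟨_, o, ho, hadj⟩ := hs
    exact absurd ((gr_adj_iff hx).1 hadj) (OO_not_mem ho).2
  · exact h1

end

end Pool.Agent.Work.MP_5f857a_co.L
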