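import Mathlib

/-!
Definitions for MP_5f857a_co: subdivisions of complete graphs in the graphs of simplicial complexes whose
links have highly connected graphs (for example boundary complexes of simplicial polytopes).

`Con G S a b`   : `a` and `b` are joined by a walk of `G` inside the set `S`.
`TK G B W`      : a subdivision of the complete graph with the set `B` of branch vertices in `G`, the inner
                  vertices of its paths lie in `W`.
`Comp G S y`    : the component of `y` in `G - S`.
`Bd G O`        : the neighbours of the set `O` outside `O`.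
`Gr Fc σ`       : the graph of the link of `σ` (`Fc` = the faces of the complex).
`Lk Fc σ`       : the vertices of the link of `σ`.
`Good Fc d`     : `Fc` behaves like the boundary complex of a simplicial `d`-polytope.
-/

set_option autoImplicit false

namespace Pool.Agent.Work.MP_5f857a_co.L

variable {α : Type*}

/-- `a` and `b` are joined by a walk of `G` all of whose vertices lie in `S`. -/
def Con (G : SimpleGraph α) (S : Set α) (a b : α) : Prop :=
  ∃ p : G.Walk a b, ∀ x ∈ p.support, x ∈ S

/-- `G` contains a subdivision of the complete graph whose set of branch vertices is `B`: for every pair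
`s = s(a, b)` of branch vertices `I s` is a set of inner vertices, `a` and `b` are joined by a walk inside
`{a, b} ∪ I s`, the sets `I s` are pairwise disjoint, contain no branch vertex and lie in `W`. -/
def TK (G : SimpleGraph α) (B : Finset α) (W : Set α) : Prop :=
  ∃ I : Sym2 α → Set α,
    (∀ a ∈ B, ∀ b ∈ B, a ≠ b → Con G ({a, b} ∪ I s(a, b)) a b) ∧
    (∀ s, I s ⊆ W) ∧ (∀ s, ∀ x ∈ B, x ∉ I s) ∧ ∀ s t, s ≠ t → Disjoint (I s) (I t)

/-- the component of `y` in `G - S` -/
def Comp (G : SimpleGraph α) (S : Set α) (y : α) : Set α :=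
  {v | Con G Sᶜ y v}

/-- the neighbours of `O` outside `O` -/
def Bd (G : SimpleGraph α) (O : Set α) : Set α :=
  {s | s ∉ O ∧ ∃ o ∈ O, G.Adj s o}

/-- `zz'` as a graph with (at most) one edge -/
def vE (z z' : α) : SimpleGraph α := SimpleGraph.fromRel (fun u v => u = z ∧ v = z')

section

variable [DecidableEq α]

/-- the graph of the link of `σ` in the complex with the faces `Fc` -/
def Gr (Fc : Finset α → Prop) (σ : Finset α) : SimpleGraph α where
  Adj x y := x ≠ y ∧ x ∉ σ ∧ y ∉ σ ∧ Fc (insert x (insert y σ))
  symm := ⟨fun x y h => ⟨h.1.symm, h.2.2.1, h.2.1, by rw [Finset.insert_comm]; exact h.2.2.2⟩⟩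
  loopless := ⟨fun x h => h.1 rfl⟩

/-- the vertices of the link of `σ` -/
def Lk (Fc : Finset α → Prop) (σ : Finset α) : Set α := {x | x ∉ σ ∧ Fc (insert x σ)}

/-- The complex `Fc` behaves like the boundary complex of a simplicial `d`-polytope: it is closed under
subsets, the link of a face with `d - e` vertices has at least `e + 1` vertices and an `e`-connected graph
(`e ≥ 2`), and every face with `d - 1` vertices lies in at most two faces with `d` vertices. -/
structure Good (Fc : Finset α → Prop) (d : ℕ) : Prop where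
  down : ∀ S T : Finset α, S ⊆ T → Fc T → Fc S
  conn : ∀ σ : Finset α, Fc σ → ∀ e, 2 ≤ e → σ.card + e = d → ∀ X : Finset α, X.card < e →
    ∀ u ∈ Lk Fc σ, u ∉ X → ∀ w ∈ Lk Fc σ, w ∉ X → Con (Gr Fc σ) (↑X)ᶜ u w
  low : ∀ σ : Finset α, Fc σ → ∀ e, 1 ≤ e → σ.card + e = d → ∀ X : Finset α, X.card ≤ e →
    ∃ w ∈ Lk Fc σ, w ∉ X
  up : ∀ σ : Finset α, Fc σ → σ.card + 1 = d → ∀ x ∈ Lk Fc σ, ∀ y ∈ Lk Fc σ, ∀ z ∈ Lk Fc σ,
    x = y ∨ x = z ∨ y = z

end

end Pool.Agent.Work.MP_5f857a_co.L
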