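import Pool.Agent.Work.MP_5f857a_co.L.Menger

/-!
MODULE Fan: the fan version of Menger's theorem inside a set `U`.
-/

set_option autoImplicit false

namespace Pool.Agent.Work.MP_5f857a_co.L

variable {α : Type*}

/-- `G` restricted to `U` without `y` -/
private def cutG (G : SimpleGraph α) (U : Set α) (y : α) : SimpleGraph α where
  Adj u v := G.Adj u v ∧ u ∈ U \ {y} ∧ v ∈ U \ {y}
  symm := ⟨fun _ _ h => ⟨h.1.symm, h.2.2, h.2.1⟩⟩
  loopless := ⟨fun _ h => h.1.ne rfl⟩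

private theorem cutG_le {G : SimpleGraph α} {U : Set α} {y : α} : cutG G U y ≤ G :=
  fun _ _ h => h.1

private theorem con_of_cut {G : SimpleGraph α} {U S : Set α} {y a b : α}
    (h : Con (cutG G U y) S a b) (ha : a ∈ U \ {y}) : Con G ((U \ {y}) ∩ S) a b :=
  (h.restrict ha fun _ _ _ _ hadj _ => hadj.2.2).mono cutG_le le_rfl

private theorem cut_of_con {G : SimpleGraph α} {U W : Set α} {y a b : α}
    (h : Con G W a b) (hW : W ⊆ U \ {y}) : Con (cutG G U y) W a b := by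
  obtain ⟨p, hp⟩ := h
  induction p with
  | nil => exact Con.refl (hp _ (by simp))
  | cons hadj p ih =>
    rename_i u v w
    have hu : u ∈ W := hp _ (by simp)
    have hv : v ∈ W := hp _ (by simp)
    exact Con.trans (Con.adj (G := cutG G U y) ⟨hadj, hW hu, hW hv⟩ hu hv)
      (ih fun t ht => hp t (by simp [ht]))

private theorem con_next {G : SimpleGraph α} {W : Set α} {y a : α} (h : Con G W y a)
    (hne : a ≠ y) : ∃ v, G.Adj y v ∧ Con G (W \ {y}) v a := by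
  classical
  obtain ⟨p, hp⟩ := h
  have hp' : ∀ x ∈ p.bypass.support, x ∈ W := fun x hx => hp x (p.support_bypass_subset_support hx)
  have hpath := p.bypass_isPath
  revert hp' hpath
  generalize p.bypass = q
  intro hq hpath
  cases q with
  | nil => exact absurd rfl hne
  | cons hadj q =>
    rename_i v
    refine ⟨v, hadj, q, fun x hx => ⟨hq x (by simp [hx]), ?_⟩⟩
    rw [SimpleGraph.Walk.cons_isPath_iff] at hpath
    rintro rfl
    exact hpath.2 hx

theorem fan [Fintype α] [DecidableEq α] (G : SimpleGraph α) (U : Set α) (y : α) (A : Finset α)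
    (hy : y ∉ A) (k : ℕ)
    (h : ∀ X : Finset α, y ∉ X → X.card < k → ∃ a ∈ A, a ∉ X ∧ Con G (U \ ↑X) y a) :
    ∃ T : Finset α, T ⊆ A ∧ T.card = k ∧ ∃ J : α → Set α,
      (∀ t ∈ T, Con G ({y, t} ∪ J t) y t) ∧ (∀ t ∈ T, J t ⊆ U) ∧ (∀ t ∈ T, y ∉ J t) ∧
      (∀ t ∈ T, ∀ a ∈ A, a ∉ J t) ∧ ∀ t ∈ T, ∀ t' ∈ T, t ≠ t' → Disjoint (J t) (J t') := by
  classical
  set A' : Finset α := Finset.univ.filter fun v => v ∈ U \ {y} ∧ G.Adj y v with hA'
  have hmen : ∀ X : Finset α, X.card < k →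
      ∃ a ∈ A', ∃ b ∈ A, Con (cutG G U y) (↑X)ᶜ a b := by
    intro X hX
    obtain ⟨a, haA, -, hc⟩ := h (X.erase y) (Finset.notMem_erase y X)
      (lt_of_le_of_lt (Finset.card_le_card (Finset.erase_subset _ _)) hX)
    have hay : a ≠ y := fun h => hy (h ▸ haA)
    obtain ⟨v, hadj, hv⟩ := con_next hc hay
    have hsub : (U \ ↑(X.erase y)) \ {y} ⊆ U \ {y} := fun t ht => ⟨ht.1.1, ht.2⟩
    refine ⟨v, ?_, a, haA, (cut_of_con hv hsub).mono le_rfl ?_⟩
    · rw [hA', Finset.mem_filter]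
      exact ⟨Finset.mem_univ _, hsub hv.left, hadj⟩
    · intro t ht htX
      refine ht.1.2 ?_
      rw [Finset.mem_coe, Finset.mem_erase]
      exact ⟨ht.2, htX⟩
  obtain ⟨T₀, hT₀, hc₀, a, J₀, h₁, h₂⟩ := menger (cutG G U y) A' A k hmen
  have hex : ∀ t, ∃ e, t ∈ T₀ → e ∈ A ∧ e ∈ J₀ t ∧
      Con G ((U \ {y}) ∩ (((↑A : Set α)ᶜ ∪ {e}) ∩ J₀ t)) (a t) e := by
    intro t
    by_cases ht : t ∈ T₀
    · obtain ⟨haA, hcon⟩ := h₁ t ht
      rw [hA', Finset.mem_filter] at haA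
      by_cases haA2 : a t ∈ A
      · exact ⟨a t, fun _ => ⟨haA2, hcon.left, Con.refl ⟨haA.2.1, Or.inr rfl, hcon.left⟩⟩⟩
      · obtain ⟨e, heB, heJ, hce⟩ := exit_of_con (O := (↑A : Set α)ᶜ) hcon
          (by simpa using haA2) (by simpa using hT₀ ht)
        refine ⟨e, fun _ => ⟨?_, heJ, con_of_cut hce haA.2.1⟩⟩
        have := heB.1
        rw [Set.mem_compl_iff, not_not] at this
        exact_mod_cast this
    · exact ⟨t, fun h => absurd h ht⟩
  choose e he using hex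
  have hinj : Set.InjOn e (T₀ : Set α) := by
    intro t ht t' ht' hee
    by_contra hne
    exact Set.disjoint_left.1 (h₂ t ht t' ht' hne) (he t ht).2.1 (hee ▸ (he t' ht').2.1)
  have hch : ∀ v, ∃ t, v ∈ T₀.image e → t ∈ T₀ ∧ e t = v := by
    intro v
    by_cases hv : v ∈ T₀.image e
    · obtain ⟨t, ht, h⟩ := Finset.mem_image.1 hv
      exact ⟨t, fun _ => ⟨ht, h⟩⟩
    · exact ⟨v, fun h => absurd h hv⟩
  choose g hg using hch
  refine ⟨T₀.image e, ?_, (Finset.card_image_of_injOn hinj).trans hc₀,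
    fun s => (U \ {y}) ∩ ((↑A : Set α)ᶜ ∩ J₀ (g s)), ?_, ?_, ?_, ?_, ?_⟩
  · intro v hv
    obtain ⟨t, ht, rfl⟩ := Finset.mem_image.1 hv
    exact (he t ht).1
  · intro s hs
    obtain ⟨h3, h4⟩ := hg s hs
    obtain ⟨-, -, h5⟩ := he _ h3
    rw [h4] at h5
    have h6 : Con G ({y, s} ∪ (U \ {y}) ∩ ((↑A : Set α)ᶜ ∩ J₀ (g s))) (a (g s)) s := by
      refine h5.mono le_rfl ?_
      rintro t ⟨ht1, ht2 | ht2, ht3⟩
      · exact Or.inr ⟨ht1, ht2, ht3⟩
      · exact Or.inl (Or.inr ht2)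
    refine Con.trans (Con.adj ?_ (Or.inl (Or.inl rfl)) h6.left) h6
    have := (h₁ _ h3).1
    rw [hA', Finset.mem_filter] at this
    exact this.2.2
  · intro s _ t ht
    exact ht.1.1
  · intro s _ ht
    exact ht.1.2 rfl
  · intro s _ b hb ht
    exact ht.2.1 (by exact_mod_cast hb)
  · intro s hs s' hs' hne
    obtain ⟨h3, h4⟩ := hg s hs
    obtain ⟨h5, h6⟩ := hg s' hs'
    have hgg : g s ≠ g s' := fun h => hne (by rw [← h4, ← h6, h])
    rw [Set.disjoint_left]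
    intro t ht ht'
    exact Set.disjoint_left.1 (h₂ _ h3 _ h5 hgg) ht.2.2 ht'.2.2

end Pool.Agent.Work.MP_5f857a_co.L
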