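import Pool.Agent.Work.MP_5f857a_co.L.Fan

/-!
MODULE FanO: `e` paths from `y` to the boundary of its component outside the star of `x`.
-/

set_option autoImplicit false

namespace Pool.Agent.Work.MP_5f857a_co.L

variable {α : Type*}

theorem fanO [Fintype α] [DecidableEq α] {Fc : Finset α → Prop} {d : ℕ} (hG : Good Fc d)
    (σ : Finset α) (hσ : Fc σ) (e : ℕ) (he : 2 ≤ e) (hd : σ.card + e = d) (x y : α)
    (hx : x ∈ Lk Fc σ) (hy : y ∈ Lk Fc σ) (hxy : x ≠ y) (hn : ¬ (Gr Fc σ).Adj x y) :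
    ∃ T : Finset α, T.card = e ∧ (∀ t ∈ T, t ∈ Bd (Gr Fc σ) (OO Fc σ x y)) ∧ ∃ J : α → Set α,
      (∀ t ∈ T, Con (Gr Fc σ) ({y, t} ∪ J t) y t) ∧ (∀ t ∈ T, J t ⊆ OO Fc σ x y \ {y}) ∧
      ∀ t ∈ T, ∀ t' ∈ T, t ≠ t' → Disjoint (J t) (J t') := by
  classical
  set O := OO Fc σ x y with hO
  set N : Finset α := Finset.univ.filter fun v => v ∈ Bd (Gr Fc σ) O with hN
  have hyO : y ∈ O := mem_OO_self hx.1 hxy hn
  have hyN : y ∉ N := by
    rw [hN, Finset.mem_filter]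
    exact fun h => h.2.1 hyO
  have hfan : ∀ X : Finset α, y ∉ X → X.card < e →
      ∃ a ∈ N, a ∉ X ∧ Con (Gr Fc σ) ((O ∪ ↑N) \ ↑X) y a := by
    intro X hyX hX
    have hw : ∃ w, w ∈ Lk Fc σ ∧ w ∉ X ∧ w ∉ O := by
      by_cases hxX : x ∈ X
      · have hlow := hG.low (insert x σ) hx.2 (e - 1) (by omega)
          (by rw [Finset.card_insert_of_notMem hx.1]; omega) X (by omega)
        obtain ⟨w, hw, hwX⟩ := hlow
        exact ⟨w, lk_insert_sub hG hw, hwX, fun hwO => (OO_not_mem hwO).2 hw⟩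
      · exact ⟨x, hx, hxX, fun hwO => (OO_not_mem hwO).1 rfl⟩
    obtain ⟨w, hw, hwX, hwO⟩ := hw
    have hcon := hG.conn σ hσ e he hd X hX y hy hyX w hw hwX
    obtain ⟨a, ha, haX, hc⟩ := exit_of_con hcon hyO hwO
    have haN : a ∈ N := by
      rw [hN, Finset.mem_filter]
      exact ⟨Finset.mem_univ _, ha⟩
    refine ⟨a, haN, by simpa using haX, hc.mono le_rfl ?_⟩
    rintro t ⟨ht | ht, htX⟩
    · exact ⟨Or.inl ht, htX⟩
    · refine ⟨Or.inr ?_, htX⟩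
      rw [Set.mem_singleton_iff] at ht
      rw [ht]
      exact_mod_cast haN
  obtain ⟨T, hT, hc, J, h1, h2, h3, h4, h5⟩ := fan (Gr Fc σ) (O ∪ ↑N) y N hyN e hfan
  refine ⟨T, hc, ?_, J, h1, ?_, h5⟩
  · intro t ht
    have := hT ht
    rw [hN, Finset.mem_filter] at this
    exact this.2
  · intro t ht v hv
    refine ⟨?_, fun hvy => h3 t ht (by rw [Set.mem_singleton_iff] at hvy; rwa [← hvy])⟩
    rcases h2 t ht hv with h | h
    · exact h
    · exact absurd hv (h4 t ht v (by exact_mod_cast h))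

end Pool.Agent.Work.MP_5f857a_co.L
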