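import Pool.Agent.Work.MP_5f857a_co.L.GeoDefs

/-!
MODULE Geo1 (M, linear algebra): faces of a simplicial configuration are closed under subsets, and the key
lemma `Elem`.
-/

set_option autoImplicit false

namespace Pool.Agent.Work.MP_5f857a_co.L

variable {α : Type*}

/-- small positive multiples do not change the sign of finitely many negative numbers -/
private theorem Geo1_eps [Fintype α] (f h : α → ℝ) : ∃ ε : ℝ, 0 < ε ∧
    ∀ x, f x < 0 → f x + ε * h x < 0 := by
  classical
  have key : ∀ s : Finset α, ∃ ε : ℝ, 0 < ε ∧ ∀ x ∈ s, f x < 0 → ∀ t, 0 < t → t ≤ ε →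
      f x + t * h x < 0 := by
    intro s
    induction s using Finset.induction_on with
    | empty => exact ⟨1, one_pos, by simp⟩
    | insert a s ha ih =>
      obtain ⟨ε, hε, h1⟩ := ih
      by_cases hfa : f a < 0
      · refine ⟨min ε (-f a / (|h a| + 1)), lt_min hε (by
          apply div_pos (by linarith); positivity), ?_⟩
        intro x hx hfx t ht hte
        rcases Finset.mem_insert.1 hx with rfl | hx
        · have h2 : t ≤ -f x / (|h x| + 1) := hte.trans (min_le_right _ _)
          have h3 : 0 < |h x| + 1 := by positivity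
          rw [le_div_iff₀ h3] at h2
          have h4 : t * h x ≤ t * |h x| := mul_le_mul_of_nonneg_left (le_abs_self _) ht.le
          nlinarith
        · exact h1 x hx hfx t ht (hte.trans (min_le_left _ _))
      · refine ⟨ε, hε, ?_⟩
        intro x hx hfx t ht hte
        rcases Finset.mem_insert.1 hx with rfl | hx
        · exact absurd hfx hfa
        · exact h1 x hx hfx t ht hte
  obtain ⟨ε, hε, h1⟩ := key Finset.univ
  exact ⟨ε, hε, fun x hx => h1 x (Finset.mem_univ x) hx ε hε le_rfl⟩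

theorem FcA_down [Fintype α] [DecidableEq α] {A : Submodule ℝ (α → ℝ)} {d : ℕ} (hC : Cfg A d)
    (S T : Finset α) (hST : S ⊆ T) (hT : FcA A T) : FcA A S := by
  obtain ⟨f, hfA, hf1, hf2, x0, hx0⟩ := id hT
  obtain ⟨h, hhA, hh⟩ := hC.simp T hT (fun x => if x ∈ S then 0 else -1)
  obtain ⟨ε, hε, he⟩ := Geo1_eps f h
  have hval : ∀ x, (x ∈ S → (f + ε • h) x = 0) ∧ (x ∉ S → (f + ε • h) x < 0) := by
    intro x
    constructor
    · intro hx
      have h1 := (hf2 x).2 (hST hx)
      have h2 := hh x (hST hx)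
      simp only [hx, if_true] at h2
      simp [h1, h2]
    · intro hx
      by_cases hxT : x ∈ T
      · have h1 := (hf2 x).2 hxT
        have h2 := hh x hxT
        simp only [hx, if_false] at h2
        simp [h1, h2, hε]
      · have h1 : f x < 0 := lt_of_le_of_ne (hf1 x) (fun h => hxT ((hf2 x).1 h))
        simpa using he x h1
  refine ⟨f + ε • h, A.add_mem hfA (A.smul_mem ε hhA), ?_, ?_, x0, ?_⟩
  · intro x
    by_cases hx : x ∈ S
    · exact ((hval x).1 hx).le
    · exact ((hval x).2 hx).le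
  · intro x
    constructor
    · intro h1
      by_contra hx
      exact absurd h1 ((hval x).2 hx).ne
    · exact (hval x).1
  · simpa using he x0 hx0

theorem exists_two [Fintype α] [DecidableEq α] {A : Submodule ℝ (α → ℝ)} {d : ℕ} (hC : Cfg A d)
    (τ : Finset α) (hτ : FcA A τ) (hc : τ.card + 1 ≤ d) (f : α → ℝ) (hf : f ∈ A)
    (hf0 : ∀ x ∈ τ, f x = 0) : ∃ g ∈ A, (∀ x ∈ τ, g x = 0) ∧ ∀ r : ℝ, g ≠ r • f := by
  classical
  -- restriction to `τ`
  let R : A →ₗ[ℝ] (τ → ℝ) :=
    { toFun := fun g x => g.1 x.1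
      map_add' := fun _ _ => rfl
      map_smul' := fun _ _ => rfl }
  have h1 := LinearMap.finrank_range_add_finrank_ker R
  have h2 : Module.finrank ℝ (LinearMap.range R) ≤ τ.card := by
    refine (Submodule.finrank_le _).trans ?_
    rw [Module.finrank_fintype_fun_eq_card, Fintype.card_coe]
  have h3 : 2 ≤ Module.finrank ℝ (LinearMap.ker R) := by
    rw [hC.dim] at h1
    omega
  by_contra hcon
  push Not at hcon
  have h4 : LinearMap.ker R ≤ Submodule.span ℝ {(⟨f, hf⟩ : A)} := by
    intro g hg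
    have hg' : ∀ x ∈ τ, g.1 x = 0 := by
      intro x hx
      have := congrFun (LinearMap.mem_ker.1 hg) ⟨x, hx⟩
      exact this
    obtain ⟨r, hr⟩ := hcon g.1 g.2 hg'
    rw [Submodule.mem_span_singleton]
    exact ⟨r, Subtype.ext hr.symm⟩
  have h5 := Submodule.finrank_mono h4
  have h6 := finrank_span_le_card (R := ℝ) ({(⟨f, hf⟩ : A)} : Set A)
  simp at h6
  omega

theorem Elem [Fintype α] [DecidableEq α] {A : Submodule ℝ (α → ℝ)} {d : ℕ} (hC : Cfg A d)
    (τ : Finset α) (hτ : FcA A τ) (hc : τ.card + 1 ≤ d) (h : α → ℝ) (hh : h ∈ A)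
    (h0 : ∀ x ∈ τ, h x = 0) (z : α) (hz : 0 < h z) :
    ∃ y, y ∉ τ ∧ FcA A (insert y τ) ∧ 0 < h y := by
  classical
  -- a function for `τ` of which `h` is not a multiple
  obtain ⟨f, hfA, hf1, hf2, hfh⟩ : ∃ f ∈ A, (∀ x, f x ≤ 0) ∧ (∀ x, f x = 0 ↔ x ∈ τ) ∧
      ∀ r : ℝ, h ≠ r • f := by
    obtain ⟨f, hfA, hf1, hf2, -⟩ := id hτ
    by_cases hm : ∀ r : ℝ, h ≠ r • f
    · exact ⟨f, hfA, hf1, hf2, hm⟩
    push Not at hm
    obtain ⟨r, hr⟩ := hm
    obtain ⟨g, hgA, hg0, hg⟩ := exists_two hC τ hτ hc f hfA (fun x hx => (hf2 x).2 hx)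
    obtain ⟨ε, hε, he⟩ := Geo1_eps f g
    have hneg : ∀ x, x ∉ τ → (f + ε • g) x < 0 := by
      intro x hx
      have h1 : f x < 0 := lt_of_le_of_ne (hf1 x) (fun h => hx ((hf2 x).1 h))
      simpa using he x h1
    have hzero : ∀ x, x ∈ τ → (f + ε • g) x = 0 := by
      intro x hx
      simp [(hf2 x).2 hx, hg0 x hx]
    refine ⟨f + ε • g, A.add_mem hfA (A.smul_mem ε hgA), ?_, ?_, ?_⟩
    · intro x
      by_cases hx : x ∈ τ
      · exact (hzero x hx).le
      · exact (hneg x hx).le
    · intro x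
      exact ⟨fun h1 => by_contra fun hx => absurd h1 (hneg x hx).ne, hzero x⟩
    · intro s hs
      have hr0 : r ≠ 0 := by
        rintro rfl
        rw [zero_smul] at hr
        rw [hr] at hz
        simp at hz
      have hs0 : s ≠ 0 := by
        rintro rfl
        rw [zero_smul] at hs
        rw [hs] at hz
        simp at hz
      apply hg ((r - s) / (s * ε))
      funext x
      have e1 := congrFun hr x
      have e2 := congrFun hs x
      simp only [Pi.smul_apply, Pi.add_apply, smul_eq_mul] at e1 e2 ⊢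
      have e3 : s * ε ≠ 0 := mul_ne_zero hs0 hε.ne'
      field_simp
      linarith
  have hneg : ∀ x, x ∉ τ → f x < 0 := fun x hx =>
    lt_of_le_of_ne (hf1 x) (fun h => hx ((hf2 x).1 h))
  have hzτ : z ∉ τ := fun hx => by rw [h0 z hx] at hz; exact lt_irrefl _ hz
  -- the maximum of `h / (-f)` outside `τ`
  have hne : (Finset.univ.filter fun x => x ∉ τ).Nonempty := ⟨z, by simp [hzτ]⟩
  obtain ⟨y, hy, hmax⟩ := Finset.exists_max_image (Finset.univ.filter fun x => x ∉ τ)
    (fun x => h x / (-f x)) hne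
  simp only [Finset.mem_filter, Finset.mem_univ, true_and] at hy hmax
  set μ := h y / (-f y) with hμ
  have hμ0 : 0 < μ := lt_of_lt_of_le (div_pos hz (by linarith [hneg z hzτ])) (hmax z hzτ)
  have hyμ : h y = μ * (-f y) := by
    rw [hμ]
    field_simp [(by linarith [hneg y hy] : (-f y) ≠ 0), (hneg y hy).ne]
  have hle : ∀ x, (h + μ • f) x ≤ 0 := by
    intro x
    by_cases hx : x ∈ τ
    · simp [h0 x hx, (hf2 x).2 hx]
    · have h1 := hmax x hx
      have h2 : 0 < -f x := by linarith [hneg x hx]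
      rw [div_le_iff₀ h2] at h1
      simp only [Pi.add_apply, Pi.smul_apply, smul_eq_mul]
      linarith
  have hex : ∃ x, (h + μ • f) x < 0 := by
    by_contra hcon
    push Not at hcon
    apply hfh (-μ)
    funext x
    have := le_antisymm (hle x) (hcon x)
    simp only [Pi.add_apply, Pi.smul_apply, smul_eq_mul] at this ⊢
    linarith
  refine ⟨y, hy, ?_, ?_⟩
  · refine FcA_down hC _ (Finset.univ.filter fun x => (h + μ • f) x = 0) ?_
      ⟨h + μ • f, A.add_mem hh (A.smul_mem μ hfA), hle, fun x => by simp, hex⟩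
    intro x hx
    simp only [Finset.mem_filter, Finset.mem_univ, true_and]
    rcases Finset.mem_insert.1 hx with rfl | hx
    · simp only [Pi.add_apply, Pi.smul_apply, smul_eq_mul]
      linarith
    · simp [h0 x hx, (hf2 x).2 hx]
  · rw [hyμ]
    exact mul_pos hμ0 (by linarith [hneg y hy])

end Pool.Agent.Work.MP_5f857a_co.L
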