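import Pool.Agent.Work.MP_5f857a_co.L.Geo1

/-!
MODULE Geo2 (M): Balinski's theorem for the links of a simplicial configuration.

Notation: `f` a function for the face `σ`, `|σ| = d - e`, `L = Lk (FcA A) σ`, `G = Gr (FcA A) σ`.
CLIMB: let `h ∈ A`, `h = 0` on `σ`, and `ρ` real. If `x ∈ L`, `(h + ρ f) x = 0` and `(h + ρ f) z > 0` for some
`z`, then `Elem` for `τ = insert x σ` (a face, `|τ| ≤ d - 1`) and the function `h + ρ f` (it vanishes on `τ`)
gives `y ∉ τ` with `insert y τ` a face and `(h + ρ f) y > 0`: so `y ∈ L`, `y` is adjacent to `x` in `G`, and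
`r y > r x = ρ` where `r v = h v / (-f v)` for `v ∉ σ` (`f v < 0`).
TOP: let moreover `h u = 0` for some `u ∉ σ`, `h ≠ 0`, and `h x' > 0` somewhere or not; let `ρ*` be the maximum
of `r` over all `v ∉ σ`, `M` the set of maximisers. `h + ρ* f ≤ 0` with zero set `σ ∪ M`; it is not the zero
function (if it is, then `ρ* ≠ 0` gives `h u ≠ 0`, and `ρ* = 0` gives `h = 0`); so `σ ∪ M` is a face and `M` is
a clique of `G` contained in `L` (`FcA_down`).
So from every `x ∈ L` there is a walk in `G` to a vertex of `M` all of whose vertices after `x` have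
`r > r x` (induction on the finite number of vertices with larger `r`, using CLIMB as long as `r x < ρ*`).
`conn`: let `|X| < e`, `u, w ∈ L \ X`. The set `σ ∪ X ∪ {u}` has at most `d - e + e - 1 + 1 = d` elements, and
`dim A = d + 1`, so some `h ∈ A`, `h ≠ 0`, vanishes on it (the restriction map to a `d`-element set is not
injective). `r = 0` on `X` and at `u`. Let `ρ*` / `ρ_*` be the maximum / minimum of `r`.
If `ρ* > 0`: every `x ∈ L \ X` with `r x ≥ 0` is joined to the top clique by a walk avoiding `X` (all later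
vertices have `r > 0`), and the top clique does not meet `X`; so all such `x` are joined to each other in
`G - X`. If `ρ_* < 0` the same (apply it to `-h`) for all `x ∈ L \ X` with `r x ≤ 0`. One of `ρ* > 0`,
`ρ_* < 0` holds (`h ≠ 0` and `h = 0` on `σ`). If both hold: `u` (`r u = 0`) is joined to `w` in either case.
If only `ρ* > 0` then `r ≥ 0` everywhere (`ρ_* ≥ 0`), so `u`, `w` are both joined to the top clique;
similarly if only `ρ_* < 0`.
-/

set_option autoImplicit false

namespace Pool.Agent.Work.MP_5f857a_co.L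

variable {α : Type*}

private theorem one_side [Fintype α] [DecidableEq α] {A : Submodule ℝ (α → ℝ)} {d : ℕ}
    (hC : Cfg A d) (σ : Finset α) (f : α → ℝ) (hfA : f ∈ A) (hf0 : ∀ x, f x ≤ 0)
    (hfs : ∀ x, f x = 0 ↔ x ∈ σ) (hcard : σ.card + 2 ≤ d) (X : Finset α) (h : α → ℝ) (hhA : h ∈ A)
    (hσ0 : ∀ x ∈ σ, h x = 0) (hX0 : ∀ x ∈ X, h x = 0) (u : α) (huσ : u ∉ σ) (hu0 : h u = 0)
    (v : α) (hv : 0 < h v) :
    ∀ x ∈ Lk (FcA A) σ, x ∉ X → 0 ≤ h x → ∀ y ∈ Lk (FcA A) σ, y ∉ X → 0 ≤ h y →
      Con (Gr (FcA A) σ) (↑X)ᶜ x y := by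
  have hneg : ∀ x, x ∉ σ → f x < 0 := fun x hx =>
    lt_of_le_of_ne (hf0 x) fun h0 => hx ((hfs x).1 h0)
  have hvσ : v ∉ σ := fun hm => by
    have := hσ0 v hm
    linarith
  set r : α → ℝ := fun x => h x / (-f x) with hr
  have hrm : ∀ x, x ∉ σ → h x = r x * (-f x) := fun x hx => by
    have := hneg x hx
    rw [hr]
    field_simp
    rw [mul_div_assoc, div_self (by linarith), mul_one]
  obtain ⟨m, hmσ, hmax⟩ : ∃ m, m ∉ σ ∧ ∀ x, x ∉ σ → r x ≤ r m := by
    obtain ⟨m, hm, hm'⟩ := (Finset.univ.filter fun x => x ∉ σ).exists_max_image r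
      ⟨v, by simp [hvσ]⟩
    refine ⟨m, by simpa using hm, fun x hx => hm' x (by simp [hx])⟩
  have hrpos : 0 < r m := by
    refine lt_of_lt_of_le ?_ (hmax v hvσ)
    have := hneg v hvσ
    rw [hr]
    exact div_pos hv (by linarith)
  -- the top face
  have htop : FcA A (Finset.univ.filter fun x => h x + r m * f x = 0) := by
    refine ⟨h + r m • f, A.add_mem hhA (A.smul_mem _ hfA), fun x => ?_, fun x => ?_, u, ?_⟩
    · rw [Pi.add_apply, Pi.smul_apply, smul_eq_mul]
      by_cases hx : x ∈ σ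
      · rw [hσ0 x hx, (hfs x).2 hx]
        simp
      · rw [hrm x hx]
        have h1 := hneg x hx
        have h2 := hmax x hx
        nlinarith
    · rw [Pi.add_apply, Pi.smul_apply, smul_eq_mul]
      simp
    · rw [Pi.add_apply, Pi.smul_apply, smul_eq_mul, hu0]
      have h1 := hneg u huσ
      nlinarith
  have hclique : ∀ a b, a ∉ σ → b ∉ σ → r a = r m → r b = r m →
      Con (Gr (FcA A) σ) (↑X)ᶜ a b := by
    intro a b ha hb hra hrb
    have hz : ∀ c, c ∉ σ → r c = r m → h c + r m * f c = 0 := by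
      intro c hc hrc
      rw [hrm c hc, hrc]
      ring
    have hcX : ∀ c, c ∉ σ → r c = r m → c ∈ ((X : Set α))ᶜ := by
      intro c hc hrc hcX
      have h1 := hX0 c hcX
      rw [hrm c hc, hrc] at h1
      have h2 := hneg c hc
      nlinarith
    by_cases hab : a = b
    · subst hab
      exact Con.refl (hcX a ha hra)
    · refine Con.adj ⟨hab, ha, hb, FcA_down hC _ _ ?_ htop⟩ (hcX a ha hra) (hcX b hb hrb)
      intro c hc
      rw [Finset.mem_insert, Finset.mem_insert] at hc
      rw [Finset.mem_filter]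
      refine ⟨Finset.mem_univ _, ?_⟩
      rcases hc with rfl | rfl | hc
      · exact hz _ ha hra
      · exact hz _ hb hrb
      · rw [hσ0 c hc, (hfs c).2 hc]
        simp
  -- climbing
  have hclimb : ∀ n : ℕ, ∀ x, x ∈ Lk (FcA A) σ → x ∉ X → 0 ≤ h x →
      (Finset.univ.filter fun y => y ∉ σ ∧ r x < r y).card ≤ n →
      ∃ a, a ∉ σ ∧ r a = r m ∧ Con (Gr (FcA A) σ) (↑X)ᶜ x a := by
    intro n
    induction n with
    | zero =>
      intro x hx hxX _ hn
      refine ⟨x, hx.1, le_antisymm (hmax x hx.1) ?_, Con.refl (by simpa using hxX)⟩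
      by_contra hlt
      push Not at hlt
      have hmem : m ∈ (Finset.univ.filter fun y => y ∉ σ ∧ r x < r y) := by
        simp [hmσ, hlt]
      have := Finset.card_pos.2 ⟨m, hmem⟩
      omega
    | succ n ih =>
      intro x hx hxX hx0 hn
      rcases lt_or_eq_of_le (hmax x hx.1) with hlt | heq
      · have hxσ : x ∉ σ := hx.1
        have hfx := hneg x hxσ
        obtain ⟨y, hy1, hy2, hy3⟩ := Elem hC (insert x σ) hx.2
          (by rw [Finset.card_insert_of_notMem hxσ]; omega) (h + r x • f)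
          (A.add_mem hhA (A.smul_mem _ hfA)) (by
            intro c hc
            rw [Pi.add_apply, Pi.smul_apply, smul_eq_mul]
            rw [Finset.mem_insert] at hc
            rcases hc with rfl | hc
            · rw [hrm c hxσ]
              ring
            · rw [hσ0 c hc, (hfs c).2 hc]
              simp) m (by
            rw [Pi.add_apply, Pi.smul_apply, smul_eq_mul, hrm m hmσ]
            have := hneg m hmσ
            nlinarith)
        rw [Finset.mem_insert, not_or] at hy1
        obtain ⟨hyx, hyσ⟩ := hy1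
        have hfy := hneg y hyσ
        rw [Pi.add_apply, Pi.smul_apply, smul_eq_mul, hrm y hyσ] at hy3
        have hry : r x < r y := by
          have h1 : 0 < (r y - r x) * (-f y) := by linarith
          by_contra hcon
          push Not at hcon
          nlinarith
        have hrx : 0 ≤ r x := div_nonneg hx0 (by linarith)
        have hhy : 0 < h y := by
          rw [hrm y hyσ]
          exact mul_pos (lt_of_le_of_lt hrx hry) (by linarith)
        have hyX : y ∉ X := fun hm => by
          have := hX0 y hm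
          linarith
        have hyL : y ∈ Lk (FcA A) σ := by
          refine ⟨hyσ, FcA_down hC _ _ ?_ hy2⟩
          exact Finset.insert_subset_insert _ (Finset.subset_insert _ _)
        have hadj : (Gr (FcA A) σ).Adj x y := by
          refine ⟨fun h => hyx h.symm, hxσ, hyσ, ?_⟩
          rw [Finset.insert_comm]
          exact hy2
        have hlt' : (Finset.univ.filter fun z => z ∉ σ ∧ r y < r z).card <
            (Finset.univ.filter fun z => z ∉ σ ∧ r x < r z).card := by
          refine Finset.card_lt_card ⟨?_, fun hsub => ?_⟩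
          · intro z hz
            rw [Finset.mem_filter] at hz ⊢
            exact ⟨hz.1, hz.2.1, hry.trans hz.2.2⟩
          · have : y ∈ (Finset.univ.filter fun z => z ∉ σ ∧ r x < r z) := by
              simp [hyσ, hry]
            have := hsub this
            simp at this
        obtain ⟨a, ha1, ha2, ha3⟩ := ih y hyL hyX hhy.le (by omega)
        exact ⟨a, ha1, ha2, (Con.adj hadj (by simpa using hxX) (by simpa using hyX)).trans ha3⟩
      · exact ⟨x, hx.1, heq, Con.refl (by simpa using hxX)⟩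
  intro x hx hxX hx0 y hy hyX hy0
  obtain ⟨a, ha1, ha2, ha3⟩ := hclimb _ x hx hxX hx0 le_rfl
  obtain ⟨b, hb1, hb2, hb3⟩ := hclimb _ y hy hyX hy0 le_rfl
  exact (ha3.trans (hclique a b ha1 hb1 ha2 hb2)).trans hb3.symm

private theorem exists_vanish [Fintype α] [DecidableEq α] {A : Submodule ℝ (α → ℝ)} {d : ℕ}
    (hdim : Module.finrank ℝ A = d + 1) (T : Finset α) (hT : T.card ≤ d) :
    ∃ h ∈ A, h ≠ 0 ∧ ∀ x ∈ T, h x = 0 := by
  let L : A →ₗ[ℝ] (T → ℝ) :=
    (LinearMap.pi fun t : T => (LinearMap.proj (t : α) : (α → ℝ) →ₗ[ℝ] ℝ)).comp A.subtype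
  have hker : L.ker ≠ ⊥ := by
    intro hbot
    have h1 := LinearMap.finrank_range_add_finrank_ker L
    rw [hbot, finrank_bot, add_zero, hdim] at h1
    have h2 : Module.finrank ℝ L.range ≤ Module.finrank ℝ (T → ℝ) := Submodule.finrank_le _
    rw [Module.finrank_fintype_fun_eq_card, Fintype.card_coe] at h2
    omega
  obtain ⟨h, hh, hne⟩ := Submodule.exists_mem_ne_zero_of_ne_bot hker
  refine ⟨h, h.2, fun h0 => hne (Subtype.ext h0), fun x hx => ?_⟩
  have h3 : L h = 0 := hh
  have h4 := congrFun h3 ⟨x, hx⟩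
  exact h4

theorem FcA_conn [Fintype α] [DecidableEq α] {A : Submodule ℝ (α → ℝ)} {d : ℕ} (hC : Cfg A d)
    (σ : Finset α) (hσ : FcA A σ) (e : ℕ) (he : 2 ≤ e) (hd : σ.card + e = d) (X : Finset α)
    (hX : X.card < e) (u : α) (hu : u ∈ Lk (FcA A) σ) (huX : u ∉ X) (w : α)
    (hw : w ∈ Lk (FcA A) σ) (hwX : w ∉ X) : Con (Gr (FcA A) σ) (↑X)ᶜ u w := by
  obtain ⟨f, hfA, hf0, hfs, _⟩ := hσ
  obtain ⟨h, hhA, hne, hT⟩ := exists_vanish hC.dim (σ ∪ X ∪ {u}) (by
    have h1 := Finset.card_union_le (σ ∪ X) {u}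
    have h2 := Finset.card_union_le σ X
    rw [Finset.card_singleton] at h1
    omega)
  have hσ0 : ∀ x ∈ σ, h x = 0 := fun x hx => hT x (by simp [hx])
  have hX0 : ∀ x ∈ X, h x = 0 := fun x hx => hT x (by simp [hx])
  have hu0 : h u = 0 := hT u (by simp)
  have hpos : ∀ v, 0 < h v → 0 ≤ h w → Con (Gr (FcA A) σ) (↑X)ᶜ u w := fun v hv hw0 =>
    one_side hC σ f hfA hf0 hfs (by omega) X h hhA hσ0 hX0 u hu.1 hu0 v hv u hu huX hu0.ge w hw hwX
      hw0
  have hneg : ∀ v, h v < 0 → h w ≤ 0 → Con (Gr (FcA A) σ) (↑X)ᶜ u w := fun v hv hw0 =>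
    one_side hC σ f hfA hf0 hfs (by omega) X (-h) (A.neg_mem hhA)
      (fun x hx => by rw [Pi.neg_apply, hσ0 x hx, neg_zero])
      (fun x hx => by rw [Pi.neg_apply, hX0 x hx, neg_zero]) u hu.1
      (by rw [Pi.neg_apply, hu0, neg_zero]) v (by rw [Pi.neg_apply]; linarith) u hu huX
      (by rw [Pi.neg_apply, hu0, neg_zero]) w hw hwX (by rw [Pi.neg_apply]; linarith)
  rcases lt_trichotomy (h w) 0 with hw1 | hw1 | hw1
  · exact hneg w hw1 hw1.le
  · obtain ⟨v, hv⟩ := Function.ne_iff.1 hne
    rcases lt_or_gt_of_ne hv with hv | hv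
    · exact hneg v hv hw1.le
    · exact hpos v hv hw1.ge
  · exact hpos w hw1 hw1.le

end Pool.Agent.Work.MP_5f857a_co.L
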