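import Pool.Agent.Work.MP_5f857a_co.L.ConB

/-!
The faces of a configuration of vectors (MP_5f857a_co). `A` is a space of functions on the finite set `α` of
vertices; for a polytope with vertex set `α` it is the space of the restrictions of the affine functions.
-/

set_option autoImplicit false

namespace Pool.Agent.Work.MP_5f857a_co.L

variable {α : Type*}

/-- `T` is a proper face: the zero set of a function `f ≤ 0` in `A`, `f ≠ 0`. -/
def FcA (A : Submodule ℝ (α → ℝ)) (T : Finset α) : Prop :=
  ∃ f ∈ A, (∀ x, f x ≤ 0) ∧ (∀ x, f x = 0 ↔ x ∈ T) ∧ ∃ x, f x < 0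

/-- a simplicial configuration of dimension `d`: `A` has dimension `d + 1` and for every proper face `T`
every function on `T` is the restriction of some member of `A` -/
structure Cfg (A : Submodule ℝ (α → ℝ)) (d : ℕ) : Prop where
  dim : Module.finrank ℝ A = d + 1
  simp : ∀ T : Finset α, FcA A T → ∀ g : α → ℝ, ∃ h ∈ A, ∀ x ∈ T, h x = g x

end Pool.Agent.Work.MP_5f857a_co.L
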