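import Pool.Agent.Work.MP_5f857a_co.L.ConB

/-!
MODULE Menger: Menger's theorem, vertex version for two finite sets (Goering's proof, induction on the number
of edges).
-/

set_option autoImplicit false

namespace Pool.Agent.Work.MP_5f857a_co.L

variable {α : Type*}

/-- the graph without the edge `xy` -/
private abbrev del (G : SimpleGraph α) (x y : α) : SimpleGraph α := G.deleteEdges {s(x, y)}

private theorem del_adj {G : SimpleGraph α} {x y u v : α} (h : G.Adj u v)
    (hne : ¬ ((u = x ∧ v = y) ∨ (u = y ∧ v = x))) : (del G x y).Adj u v := by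
  rw [SimpleGraph.deleteEdges_adj]
  refine ⟨h, fun hm => hne ?_⟩
  rw [Set.mem_singleton_iff, Sym2.eq_iff] at hm
  exact hm

private theorem del_le {G : SimpleGraph α} {x y : α} : del G x y ≤ G :=
  SimpleGraph.deleteEdges_le _

private theorem del_symm {G : SimpleGraph α} {x y : α} : del G x y = del G y x := by
  rw [del, del, Sym2.eq_swap]

/-- a walk inside a set without `x` does not use the edge `xy` -/
private theorem con_avoid {G : SimpleGraph α} {x y a b : α} {U : Set α} (h : Con G U a b)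
    (hx : x ∉ U) : Con (del G x y) U a b := by
  obtain ⟨p, hp⟩ := h
  induction p with
  | nil => exact Con.refl (hp _ (by simp))
  | cons hadj p ih =>
    rename_i u v w
    have hu : u ∈ U := hp _ (by simp)
    have hv : v ∈ U := hp _ (by simp)
    refine Con.trans (Con.adj (del_adj hadj ?_) hu hv) (ih fun t ht => hp t (by simp [ht]))
    rintro (⟨h1, -⟩ | ⟨-, h1⟩)
    · exact hx (h1 ▸ hu)
    · exact hx (h1 ▸ hv)

/-- a walk either avoids the edge `xy` or passes through it -/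
private theorem con_split {G : SimpleGraph α} {x y a b : α} {U : Set α} (h : Con G U a b) :
    Con (del G x y) U a b ∨ (Con (del G x y) U a x ∧ Con (del G x y) U y b) ∨
      (Con (del G x y) U a y ∧ Con (del G x y) U x b) := by
  obtain ⟨p, hp⟩ := h
  induction p with
  | nil => exact Or.inl (Con.refl (hp _ (by simp)))
  | cons hadj p ih =>
    rename_i u v w
    have hu : u ∈ U := hp _ (by simp)
    have hv : v ∈ U := hp _ (by simp)
    have ih' := ih fun t ht => hp t (by simp [ht])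
    by_cases hne : (u = x ∧ v = y) ∨ (u = y ∧ v = x)
    · rcases hne with ⟨rfl, rfl⟩ | ⟨rfl, rfl⟩
      · rcases ih' with h1 | ⟨h1, h2⟩ | ⟨h1, h2⟩
        · exact Or.inr (Or.inl ⟨Con.refl hu, h1⟩)
        · exact Or.inr (Or.inl ⟨Con.refl hu, h2⟩)
        · exact Or.inl h2
      · rcases ih' with h1 | ⟨h1, h2⟩ | ⟨h1, h2⟩
        · exact Or.inr (Or.inr ⟨Con.refl hu, h1⟩)
        · exact Or.inl h2
        · exact Or.inr (Or.inr ⟨Con.refl hu, h2⟩)
    · have h0 : Con (del G x y) U u v := Con.adj (del_adj hadj hne) hu hv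
      rcases ih' with h1 | ⟨h1, h2⟩ | ⟨h1, h2⟩
      · exact Or.inl (h0.trans h1)
      · exact Or.inr (Or.inl ⟨h0.trans h1, h2⟩)
      · exact Or.inr (Or.inr ⟨h0.trans h1, h2⟩)

/-- the conclusion of Menger's theorem for connections ending in `e t`, `t ∈ P` -/
private theorem reindex [DecidableEq α] {G : SimpleGraph α} {A B P : Finset α} (e a : α → α)
    (J : α → Set α) (he : ∀ t ∈ P, e t ∈ B)
    (h1 : ∀ t ∈ P, a t ∈ A ∧ Con G (J t) (a t) (e t))
    (h2 : ∀ t ∈ P, ∀ t' ∈ P, t ≠ t' → Disjoint (J t) (J t')) :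
    ∃ T : Finset α, T ⊆ B ∧ T.card = P.card ∧ ∃ (a : α → α) (J : α → Set α),
      (∀ t ∈ T, a t ∈ A ∧ Con G (J t) (a t) t) ∧
      ∀ t ∈ T, ∀ t' ∈ T, t ≠ t' → Disjoint (J t) (J t') := by
  have hinj : Set.InjOn e (P : Set α) := by
    intro t ht t' ht' hee
    by_contra hne
    have hd := h2 t ht t' ht' hne
    exact Set.disjoint_left.1 hd (h1 t ht).2.right (hee ▸ (h1 t' ht').2.right)
  refine ⟨P.image e, ?_, Finset.card_image_of_injOn hinj, ?_⟩
  · intro v hv
    obtain ⟨t, ht, rfl⟩ := Finset.mem_image.1 hv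
    exact he t ht
  have hch : ∀ v, ∃ t, v ∈ P.image e → t ∈ P ∧ e t = v := by
    intro v
    by_cases hv : v ∈ P.image e
    · obtain ⟨t, ht, h⟩ := Finset.mem_image.1 hv
      exact ⟨t, fun _ => ⟨ht, h⟩⟩
    · exact ⟨v, fun h => absurd h hv⟩
  choose g hg using hch
  refine ⟨fun v => a (g v), fun v => J (g v), ?_, ?_⟩
  · intro v hv
    obtain ⟨h3, h4⟩ := hg v hv
    have h5 := h1 _ h3
    rw [h4] at h5
    exact h5
  · intro v hv v' hv' hne
    obtain ⟨h3, h4⟩ := hg v hv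
    obtain ⟨h5, h6⟩ := hg v' hv'
    refine h2 _ h3 _ h5 fun h => hne ?_
    rw [← h4, ← h6, h]

private theorem fact [DecidableEq α] {G : SimpleGraph α} {A B S : Finset α} {x y : α} {k : ℕ}
    (h : ∀ X : Finset α, X.card < k → ∃ a ∈ A, ∃ b ∈ B, Con G (↑X)ᶜ a b)
    (sep : ∀ a ∈ A, ∀ b ∈ B, ¬ Con (del G x y) (↑S)ᶜ a b)
    (hyb : ∃ b ∈ B, Con (del G x y) (↑S)ᶜ y b) (X : Finset α) (hX : X.card < k) :
    ∃ a ∈ A, ∃ p ∈ insert x S, Con (del G x y) (↑X)ᶜ a p := by
  obtain ⟨a, ha, b, hb, hab⟩ := h X hX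
  by_cases haP : a ∈ insert x S
  · exact ⟨a, ha, a, haP, Con.refl hab.left⟩
  have haP' : a ∉ ((insert x S : Finset α) : Set α) := by simpa using haP
  have hsub : ∀ c, Con G (↑(insert x S))ᶜ a c → Con (del G x y) (↑S)ᶜ a c := by
    intro c hc
    refine (con_avoid (x := x) (y := y) hc ?_).mono le_rfl ?_
    · simp
    · intro t ht hts
      exact ht (by simp at hts ⊢; exact Or.inr hts)
  have hbO : b ∉ Comp G (↑(insert x S)) a := fun hbo => sep a ha b hb (hsub b hbo)
  obtain ⟨p, hpB, hpX, hp⟩ := exit_of_con hab (mem_comp_self haP') hbO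
  have hpP : p ∈ insert x S := by
    have := bd_comp_sub hpB
    exact_mod_cast this
  refine ⟨a, ha, p, hpP, ?_⟩
  have hxO : x ∉ Comp G (↑(insert x S)) a := fun hxo => comp_not_mem hxo (by simp)
  by_cases hpx : p = x
  · subst hpx
    have hyO : y ∉ Comp G (↑(insert p S)) a := by
      intro hyo
      obtain ⟨b', hb', hyb'⟩ := hyb
      exact sep a ha b' hb' ((hsub y hyo).trans hyb')
    by_cases hyp : y = p
    · subst hyp
      refine (hp.mono ?_ Set.inter_subset_right)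
      intro u v huv
      refine del_adj huv ?_
      rintro (⟨h1, h2⟩ | ⟨h1, h2⟩)
      · exact huv.ne (h1.trans h2.symm)
      · exact huv.ne (h1.trans h2.symm)
    · rw [del_symm]
      refine (con_avoid hp ?_).mono le_rfl Set.inter_subset_right
      rintro ⟨h1 | h1, -⟩
      · exact hyO h1
      · exact hyp h1
  · refine (con_avoid hp ?_).mono le_rfl Set.inter_subset_right
    rintro ⟨h1 | h1, -⟩
    · exact hxO h1
    · exact hpx h1.symm

/-- replace `J` by the support of a path -/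
private theorem path_of_con {G : SimpleGraph α} {J : Set α} {a t : α} (h : Con G J a t) :
    ∃ J' ⊆ J, Con G J' a t ∧ ∀ v ∈ J', v ≠ t → Con G (J' \ {t}) a v := by
  classical
  obtain ⟨p, hp⟩ := h
  refine ⟨{v | v ∈ p.bypass.support}, fun v hv => hp v (p.support_bypass_subset_support hv),
    ⟨p.bypass, fun v hv => hv⟩, ?_⟩
  intro v hv hne
  have hpath : p.bypass.IsPath := p.bypass_isPath
  refine ⟨p.bypass.takeUntil v hv, fun w hw => ⟨p.bypass.support_takeUntil_subset_support hv hw, ?_⟩⟩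
  intro hwt
  rw [Set.mem_singleton_iff] at hwt
  subst hwt
  exact SimpleGraph.Walk.endpoint_notMem_support_takeUntil hpath hv (Ne.symm hne) hw

private theorem glue [DecidableEq α] {G : SimpleGraph α} {A B S : Finset α} {x y : α}
    (hxy : G.Adj x y) (hxS : x ∉ S) (hyS : y ∉ S)
    (sep : ∀ a ∈ A, ∀ b ∈ B, ¬ Con (del G x y) (↑S)ᶜ a b)
    (a₁ : α → α) (J₁ : α → Set α)
    (h₁ : ∀ t ∈ insert x S, a₁ t ∈ A ∧ Con (del G x y) (J₁ t) (a₁ t) t)
    (d₁ : ∀ t ∈ insert x S, ∀ t' ∈ insert x S, t ≠ t' → Disjoint (J₁ t) (J₁ t'))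
    (a₂ : α → α) (J₂ : α → Set α)
    (h₂ : ∀ t ∈ insert y S, a₂ t ∈ B ∧ Con (del G x y) (J₂ t) (a₂ t) t)
    (d₂ : ∀ t ∈ insert y S, ∀ t' ∈ insert y S, t ≠ t' → Disjoint (J₂ t) (J₂ t')) :
    ∃ T : Finset α, T ⊆ B ∧ T.card = (insert x S).card ∧ ∃ (a : α → α) (J : α → Set α),
      (∀ t ∈ T, a t ∈ A ∧ Con G (J t) (a t) t) ∧
      ∀ t ∈ T, ∀ t' ∈ T, t ≠ t' → Disjoint (J t) (J t') := by
  -- shorten
  have s₁ : ∀ t, ∃ J', t ∈ insert x S → J' ⊆ J₁ t ∧ Con (del G x y) J' (a₁ t) t ∧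
      ∀ v ∈ J', v ≠ t → Con (del G x y) (J' \ {t}) (a₁ t) v := by
    intro t
    by_cases ht : t ∈ insert x S
    · obtain ⟨J', h⟩ := path_of_con (h₁ t ht).2
      exact ⟨J', fun _ => h⟩
    · exact ⟨∅, fun h => absurd h ht⟩
  have s₂ : ∀ t, ∃ J', t ∈ insert y S → J' ⊆ J₂ t ∧ Con (del G x y) J' (a₂ t) t ∧
      ∀ v ∈ J', v ≠ t → Con (del G x y) (J' \ {t}) (a₂ t) v := by
    intro t
    by_cases ht : t ∈ insert y S
    · obtain ⟨J', h⟩ := path_of_con (h₂ t ht).2
      exact ⟨J', fun _ => h⟩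
    · exact ⟨∅, fun h => absurd h ht⟩
  choose K₁ k₁ using s₁
  choose K₂ k₂ using s₂
  -- the sets contain no other vertex of `insert x S`
  have only₁ : ∀ t ∈ insert x S, ∀ v ∈ K₁ t, v ∈ insert x S → v = t := by
    intro t ht v hv hvP
    by_contra hne
    exact Set.disjoint_left.1 (d₁ v hvP t ht hne) (h₁ v hvP).2.right ((k₁ t ht).1 hv)
  have only₂ : ∀ t ∈ insert y S, ∀ v ∈ K₂ t, v ∈ insert y S → v = t := by
    intro t ht v hv hvP
    by_contra hne
    exact Set.disjoint_left.1 (d₂ v hvP t ht hne) (h₂ v hvP).2.right ((k₂ t ht).1 hv)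
  have reach₁ : ∀ t ∈ insert x S, ∀ v ∈ K₁ t, v ∉ S → Con (del G x y) (↑S)ᶜ (a₁ t) v := by
    intro t ht v hv hvS
    by_cases hvt : v = t
    · rw [hvt]
      refine (k₁ t ht).2.1.mono le_rfl fun w hw hwS => ?_
      have := only₁ t ht w hw (Finset.mem_insert_of_mem (by exact_mod_cast hwS))
      rw [this, ← hvt] at hwS
      exact hvS (by exact_mod_cast hwS)
    · refine ((k₁ t ht).2.2 v hv hvt).mono le_rfl fun w hw hwS => hw.2 ?_
      exact only₁ t ht w hw.1 (Finset.mem_insert_of_mem (by exact_mod_cast hwS))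
  have reach₂ : ∀ t ∈ insert y S, ∀ v ∈ K₂ t, v ∉ S → Con (del G x y) (↑S)ᶜ (a₂ t) v := by
    intro t ht v hv hvS
    by_cases hvt : v = t
    · rw [hvt]
      refine (k₂ t ht).2.1.mono le_rfl fun w hw hwS => ?_
      have := only₂ t ht w hw (Finset.mem_insert_of_mem (by exact_mod_cast hwS))
      rw [this, ← hvt] at hwS
      exact hvS (by exact_mod_cast hwS)
    · refine ((k₂ t ht).2.2 v hv hvt).mono le_rfl fun w hw hwS => hw.2 ?_
      exact only₂ t ht w hw.1 (Finset.mem_insert_of_mem (by exact_mod_cast hwS))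
  have cross : ∀ t ∈ insert x S, ∀ t' ∈ insert y S, ∀ v, v ∈ K₁ t → v ∈ K₂ t' →
      v ∈ S ∧ v = t ∧ v = t' := by
    intro t ht t' ht' v hv hv'
    have hvS : v ∈ S := by
      by_contra hvS
      exact sep _ (h₁ t ht).1 _ (h₂ t' ht').1
        ((reach₁ t ht v hv hvS).trans (reach₂ t' ht' v hv' hvS).symm)
    exact ⟨hvS, only₁ t ht v hv (Finset.mem_insert_of_mem hvS),
      only₂ t' ht' v hv' (Finset.mem_insert_of_mem hvS)⟩
  set f : α → α := fun t => if t = x then y else t with hf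
  have hfx : f x = y := if_pos rfl
  have hfS : ∀ t ∈ S, f t = t := by
    intro t ht
    refine if_neg ?_
    rintro rfl
    exact hxS ht
  have hfQ : ∀ t ∈ insert x S, f t ∈ insert y S := by
    intro t ht
    rcases Finset.mem_insert.1 ht with rfl | h
    · rw [hfx]
      exact Finset.mem_insert_self _ _
    · rw [hfS t h]
      exact Finset.mem_insert_of_mem h
  have hfinj : ∀ t ∈ insert x S, ∀ t' ∈ insert x S, f t = f t' → t = t' := by
    intro t ht t' ht' hff
    rcases Finset.mem_insert.1 ht with h | h <;> rcases Finset.mem_insert.1 ht' with h' | h'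
    · rw [h, h']
    · rw [h, hfx, hfS t' h'] at hff
      exact absurd (hff ▸ h') hyS
    · rw [h', hfx, hfS t h] at hff
      exact absurd (hff ▸ h) hyS
    · rwa [hfS t h, hfS t' h'] at hff
  refine reindex (P := insert x S) (fun t => a₂ (f t)) a₁ (fun t => K₁ t ∪ K₂ (f t)) ?_ ?_ ?_
  · intro t ht
    exact (h₂ _ (hfQ t ht)).1
  · intro t ht
    refine ⟨(h₁ t ht).1, ?_⟩
    have c1 : Con G (K₁ t ∪ K₂ (f t)) (a₁ t) t := (k₁ t ht).2.1.mono del_le Set.subset_union_left
    have c2 : Con G (K₁ t ∪ K₂ (f t)) (f t) (a₂ (f t)) :=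
      ((k₂ _ (hfQ t ht)).2.1.mono del_le Set.subset_union_right).symm
    by_cases htx : t = x
    · subst htx
      rw [hfx] at c1 c2 ⊢
      exact (c1.trans (Con.adj hxy c1.right c2.left)).trans c2
    · have htS : t ∈ S := (Finset.mem_insert.1 ht).resolve_left htx
      rw [hfS t htS] at c1 c2 ⊢
      exact c1.trans c2
  · intro t ht t' ht' hne
    rw [Set.disjoint_left]
    rintro v (hv | hv) (hv' | hv')
    · exact Set.disjoint_left.1 (d₁ t ht t' ht' hne) ((k₁ t ht).1 hv) ((k₁ t' ht').1 hv')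
    · obtain ⟨hS, h1, h2⟩ := cross t ht (f t') (hfQ t' ht') v hv hv'
      apply hne
      apply hfinj t ht t' ht'
      rw [← h2, h1, hfS t (h1 ▸ hS)]
    · obtain ⟨hS, h1, h2⟩ := cross t' ht' (f t) (hfQ t ht) v hv' hv
      apply hne
      apply hfinj t ht t' ht'
      rw [← h2, h1, hfS t' (h1 ▸ hS)]
    · have hff : f t ≠ f t' := fun h => hne (hfinj t ht t' ht' h)
      exact Set.disjoint_left.1 (d₂ _ (hfQ t ht) _ (hfQ t' ht') hff)
        ((k₂ _ (hfQ t ht)).1 hv) ((k₂ _ (hfQ t' ht')).1 hv')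

private theorem step [DecidableEq α] {G : SimpleGraph α} {x y : α} (hxy : G.Adj x y)
    {A B S : Finset α} {k : ℕ}
    (ih : ∀ (A B : Finset α) (k : ℕ),
      (∀ X : Finset α, X.card < k → ∃ a ∈ A, ∃ b ∈ B, Con (del G x y) (↑X)ᶜ a b) →
      ∃ T : Finset α, T ⊆ B ∧ T.card = k ∧ ∃ (a : α → α) (J : α → Set α),
      (∀ t ∈ T, a t ∈ A ∧ Con (del G x y) (J t) (a t) t) ∧
      ∀ t ∈ T, ∀ t' ∈ T, t ≠ t' → Disjoint (J t) (J t'))
    (h : ∀ X : Finset α, X.card < k → ∃ a ∈ A, ∃ b ∈ B, Con G (↑X)ᶜ a b)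
    (hS : S.card < k) (sep : ∀ a ∈ A, ∀ b ∈ B, ¬ Con (del G x y) (↑S)ᶜ a b)
    (hax : ∃ a ∈ A, Con (del G x y) (↑S)ᶜ a x) (hyb : ∃ b ∈ B, Con (del G x y) (↑S)ᶜ y b) :
    ∃ T : Finset α, T ⊆ B ∧ T.card = k ∧ ∃ (a : α → α) (J : α → Set α),
      (∀ t ∈ T, a t ∈ A ∧ Con G (J t) (a t) t) ∧
      ∀ t ∈ T, ∀ t' ∈ T, t ≠ t' → Disjoint (J t) (J t') := by
  have hxS : x ∉ S := by
    obtain ⟨a, _, h1⟩ := hax
    exact_mod_cast h1.right
  have hyS : y ∉ S := by
    obtain ⟨b, _, h1⟩ := hyb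
    exact_mod_cast h1.left
  have hPk : (insert x S).card = k := by
    rw [Finset.card_insert_of_notMem hxS]
    by_contra hne
    have hlt : (insert x S).card < k := by
      rw [Finset.card_insert_of_notMem hxS]
      omega
    obtain ⟨a, ha, b, hb, hab⟩ := h _ hlt
    refine sep a ha b hb ((con_avoid (x := x) (y := y) hab ?_).mono le_rfl ?_)
    · simp
    · intro t ht hts
      exact ht (by simp at hts ⊢; exact Or.inr hts)
  have hQk : (insert y S).card = k := by
    rw [Finset.card_insert_of_notMem hxS] at hPk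
    rw [Finset.card_insert_of_notMem hyS, hPk]
  obtain ⟨T₁, hT₁, hc₁, a₁, J₁, h₁, d₁⟩ := ih A (insert x S) k fun X hX => fact h sep hyb X hX
  obtain ⟨T₂, hT₂, hc₂, a₂, J₂, h₂, d₂⟩ := ih B (insert y S) k fun X hX => by
    have h' : ∀ X : Finset α, X.card < k → ∃ b ∈ B, ∃ a ∈ A, Con G (↑X)ᶜ b a := by
      intro X hX
      obtain ⟨a, ha, b, hb, hab⟩ := h X hX
      exact ⟨b, hb, a, ha, hab.symm⟩
    have sep' : ∀ b ∈ B, ∀ a ∈ A, ¬ Con (del G y x) (↑S)ᶜ b a := by
      intro b hb a ha hba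
      rw [← del_symm] at hba
      exact sep a ha b hb hba.symm
    have hxa : ∃ a ∈ A, Con (del G y x) (↑S)ᶜ x a := by
      obtain ⟨a, ha, h1⟩ := hax
      rw [← del_symm]
      exact ⟨a, ha, h1.symm⟩
    have := fact h' sep' hxa X hX
    rw [← del_symm] at this
    exact this
  have e₁ : T₁ = insert x S := Finset.eq_of_subset_of_card_le hT₁ (by omega)
  have e₂ : T₂ = insert y S := Finset.eq_of_subset_of_card_le hT₂ (by omega)
  subst e₁
  subst e₂
  have := glue hxy hxS hyS sep a₁ J₁ h₁ d₁ a₂ J₂ h₂ d₂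
  rw [hPk] at this
  exact this

theorem menger [Fintype α] [DecidableEq α] (G : SimpleGraph α) (A B : Finset α) (k : ℕ)
    (h : ∀ X : Finset α, X.card < k → ∃ a ∈ A, ∃ b ∈ B, Con G (↑X)ᶜ a b) :
    ∃ T : Finset α, T ⊆ B ∧ T.card = k ∧ ∃ (a : α → α) (J : α → Set α),
      (∀ t ∈ T, a t ∈ A ∧ Con G (J t) (a t) t) ∧
      ∀ t ∈ T, ∀ t' ∈ T, t ≠ t' → Disjoint (J t) (J t') := by
  induction hn : G.edgeSet.ncard using Nat.strong_induction_on generalizing G A B k with
  | _ n ih =>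
    subst hn
    by_cases hE : ∃ x y, G.Adj x y
    · obtain ⟨x, y, hxy⟩ := hE
      have hlt : (del G x y).edgeSet.ncard < G.edgeSet.ncard := by
        refine Set.ncard_lt_ncard ?_ (Set.toFinite _)
        rw [SimpleGraph.edgeSet_deleteEdges]
        refine ⟨Set.sdiff_subset, fun hsub => ?_⟩
        have := hsub (show s(x, y) ∈ G.edgeSet from hxy)
        exact this.2 rfl
      have ih' := fun A B k h => ih _ hlt (del G x y) A B k h rfl
      by_cases hsep : ∀ X : Finset α, X.card < k →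
          ∃ a ∈ A, ∃ b ∈ B, Con (del G x y) (↑X)ᶜ a b
      · obtain ⟨T, hT, hc, a, J, h1, h2⟩ := ih' A B k hsep
        exact ⟨T, hT, hc, a, J, fun t ht => ⟨(h1 t ht).1, (h1 t ht).2.mono del_le le_rfl⟩, h2⟩
      · push Not at hsep
        obtain ⟨S, hS, sep⟩ := hsep
        obtain ⟨a, ha, b, hb, hab⟩ := h S hS
        rcases con_split (x := x) (y := y) hab with h1 | ⟨h1, h2⟩ | ⟨h1, h2⟩
        · exact absurd h1 (sep a ha b hb)
        · exact step hxy ih' h hS sep ⟨a, ha, h1⟩ ⟨b, hb, h2⟩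
        · rw [del_symm] at h1 h2 ih'
          simp only [del_symm (x := x) (y := y)] at sep
          exact step hxy.symm ih' h hS sep ⟨a, ha, h1⟩ ⟨b, hb, h2⟩
    · push Not at hE
      have heq : ∀ (U : Set α) a b, Con G U a b → a = b := by
        rintro U a b ⟨p, -⟩
        cases p with
        | nil => rfl
        | cons hadj p => exact absurd hadj (hE _ _)
      have hk : k ≤ (A ∩ B).card := by
        by_contra hlt
        push Not at hlt
        obtain ⟨a, ha, b, hb, hab⟩ := h _ hlt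
        have h1 := heq _ _ _ hab
        subst h1
        exact hab.left (by simp [ha, hb])
      obtain ⟨T, hT, hc⟩ := Finset.exists_subset_card_eq hk
      refine ⟨T, hT.trans Finset.inter_subset_right, hc, id, fun t => {t}, ?_, ?_⟩
      · intro t ht
        exact ⟨(Finset.mem_inter.1 (hT ht)).1, Con.refl rfl⟩
      · intro t _ t' _ hne
        rw [Set.disjoint_singleton]
        exact hne

end Pool.Agent.Work.MP_5f857a_co.L
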